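import Pool.Agent.STK.Defs
import Pool.Agent.CFT.Defs

/-!
# Programs with one stack as programs with forks
-/

set_option autoImplicit false

namespace Pool.Agent.STK

open Finset
open Pool.Agent.Lib_helper20.SRO (Agrees)
open Pool.Agent.CFT (FP Der)

namespace ONE

variable {V Γ N : Type}

/-- edges of the program of a stack program with one stack -/
inductive Edge (G : Prog V 1 Γ N) : N ⊕ (N × N) → List (V × Bool) → N ⊕ (N × N) → Prop
  | top {u v : N} {t : List (V × Bool)} : G.test u t v → Edge G (Sum.inl u) t (Sum.inl v)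
  | topPush {u v : N} {a : Γ} : G.push u 0 a v → Edge G (Sum.inl u) [] (Sum.inl v)
  | bal {u v w : N} {t : List (V × Bool)} : G.test u t v →
      Edge G (Sum.inr (u, w)) t (Sum.inr (v, w))

/-- forks -/
inductive Fork (G : Prog V 1 Γ N) : N ⊕ (N × N) → N ⊕ (N × N) → N ⊕ (N × N) → Prop
  | top {u u1 v1 u2 : N} {a : Γ} : G.push u 0 a u1 → G.pop v1 0 a u2 →
      Fork G (Sum.inl u) (Sum.inr (u1, v1)) (Sum.inl u2)
  | bal {u u1 v1 u2 w : N} {a : Γ} : G.push u 0 a u1 → G.pop v1 0 a u2 →
      Fork G (Sum.inr (u, w)) (Sum.inr (u1, v1)) (Sum.inr (u2, w))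

/-- final nodes -/
inductive Fin (G : Prog V 1 Γ N) : N ⊕ (N × N) → Prop
  | top : Fin G (Sum.inl G.sink)
  | bal (u : N) : Fin G (Sum.inr (u, u))

/-- The program with forks: the node `inl u` stands for a run from `u` to the sink that never goes
below the present height of the stack, `inr (u, v)` for a run from `u` to `v` of this kind that ends
with the present stack. -/
def toFP (G : Prog V 1 Γ N) : FP V (N ⊕ (N × N)) where
  source := Sum.inl G.source
  edge := Edge G
  fork := Fork G
  fin := Fin G

/-! ### From trees to runs -/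

/-- a run with one stack -/
abbrev R1 (G : Prog V 1 Γ N) (u : N) (s : List Γ) (v : N) (s' : List Γ) (l : List (V × Bool)) :
    Prop := Run G u (fun _ => s) v (fun _ => s') l

lemma upd (s : List Γ) (i : _root_.Fin 1) (s' : List Γ) :
    Function.update (fun _ : _root_.Fin 1 => s) i s' = fun _ => s' := by
  funext j
  rw [Subsingleton.elim j i, Function.update_self]

lemma R1.test' {G : Prog V 1 Γ N} {u u' v : N} {s s' : List Γ} {t l : List (V × Bool)}
    (h : G.test u t u') (h' : R1 G u' s v s' l) : R1 G u s v s' (t ++ l) := Run.test h h'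

lemma R1.push' {G : Prog V 1 Γ N} {u u' v : N} {s s' : List Γ} {l : List (V × Bool)} {a : Γ}
    (h : G.push u 0 a u') (h' : R1 G u' (a :: s) v s' l) : R1 G u s v s' l := by
  refine Run.push 0 a h ?_
  rw [upd]
  exact h'

lemma R1.pop' {G : Prog V 1 Γ N} {u u' v : N} {s s' : List Γ} {l : List (V × Bool)} {a : Γ}
    (h : G.pop u 0 a u') (h' : R1 G u' s v s' l) : R1 G u (a :: s) v s' l := by
  refine Run.pop 0 a s h rfl ?_
  rw [upd]
  exact h'

lemma Run.trans {k : ℕ} {G : Prog V k Γ N} {u v w : N} {s s' s'' : _root_.Fin k → List Γ}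
    {l l' : List (V × Bool)} (h : Run G u s v s' l) (h' : Run G v s' w s'' l') :
    Run G u s w s'' (l ++ l') := by
  induction h with
  | nil u s => exact h'
  | test ht _ ih =>
    rw [List.append_assoc]
    exact Run.test ht (ih h')
  | push i a hp _ ih => exact Run.push i a hp (ih h')
  | pop i a r hp hs _ ih => exact Run.pop i a r hp hs (ih h')

/-- the meaning of a node of the program with forks -/
def Mean (G : Prog V 1 Γ N) : N ⊕ (N × N) → List (V × Bool) → Prop
  | Sum.inl u, l => ∀ s, ∃ s', R1 G u s G.sink s' l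
  | Sum.inr p, l => ∀ s, R1 G p.1 s p.2 s l

lemma mean_of_der (G : Prog V 1 Γ N) {q : N ⊕ (N × N)} {l : List (V × Bool)}
    (h : Der (toFP G) q l) : Mean G q l := by
  induction h with
  | fin h =>
    cases h with
    | top => exact fun s => ⟨s, Run.nil _ _⟩
    | bal u => exact fun s => Run.nil _ _
  | edge h _ ih =>
    cases h with
    | top ht =>
      intro s
      obtain ⟨s', hs'⟩ := ih s
      exact ⟨s', hs'.test' ht⟩
    | topPush hp =>
      intro s
      obtain ⟨s', hs'⟩ := ih (_ :: s)
      exact ⟨s', R1.push' hp hs'⟩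
    | bal ht => exact fun s => (ih s).test' ht
  | fork h _ _ ih1 ih2 =>
    cases h with
    | top hp hq =>
      intro s
      obtain ⟨s', hs'⟩ := ih2 s
      exact ⟨s', R1.push' hp (Run.trans (ih1 _) (R1.pop' hq hs'))⟩
    | bal hp hq =>
      intro s
      exact R1.push' hp (Run.trans (ih1 _) (R1.pop' hq (ih2 s)))

/-! ### From runs to trees -/

/-- the decomposition of a run to the sink: `s` is the stack at the start -/
def Chain (G : Prog V 1 Γ N) : N → List Γ → List (V × Bool) → Prop
  | u, [], l => Der (toFP G) (Sum.inl u) l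
  | u, a :: s, l => Der (toFP G) (Sum.inl u) l ∨ ∃ v u' l0 l1, Der (toFP G) (Sum.inr (u, v)) l0 ∧
      G.pop v 0 a u' ∧ Chain G u' s l1 ∧ l = l0 ++ l1

lemma chain_top {G : Prog V 1 Γ N} {u : N} {l : List (V × Bool)}
    (h : Der (toFP G) (Sum.inl u) l) (s : List Γ) : Chain G u s l := by
  cases s with
  | nil => exact h
  | cons a s => exact Or.inl h

lemma chain_test {G : Prog V 1 Γ N} {u u' : N} {t l : List (V × Bool)} (h : G.test u t u')
    {s : List Γ} (h' : Chain G u' s l) : Chain G u s (t ++ l) := by
  cases s with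
  | nil => exact Der.edge (G := toFP G) (Edge.top h) h'
  | cons a s =>
    rcases h' with h' | ⟨v, w, l0, l1, h0, hp, h1, rfl⟩
    · exact Or.inl (Der.edge (G := toFP G) (Edge.top h) h')
    · exact Or.inr ⟨v, w, t ++ l0, l1, Der.edge (G := toFP G) (Edge.bal h) h0, hp, h1, by
        rw [List.append_assoc]⟩

lemma chain_push {G : Prog V 1 Γ N} {u u' : N} {a : Γ} {l : List (V × Bool)}
    (h : G.push u 0 a u') {s : List Γ} (h' : Chain G u' (a :: s) l) : Chain G u s l := by
  rcases h' with h' | ⟨v, w, l0, l1, h0, hp, h1, rfl⟩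
  · exact chain_top (Der.edge (G := toFP G) (Edge.topPush h) h') s
  · cases s with
    | nil => exact Der.fork (G := toFP G) (Fork.top h hp) h0 h1
    | cons b s =>
      rcases h1 with h1 | ⟨v', w', l0', l1', h0', hp', h1', rfl⟩
      · exact Or.inl (Der.fork (G := toFP G) (Fork.top h hp) h0 h1)
      · exact Or.inr ⟨v', w', l0 ++ l0', l1', Der.fork (G := toFP G) (Fork.bal h hp) h0 h0', hp',
          h1', by rw [List.append_assoc]⟩

lemma chain_of_run (G : Prog V 1 Γ N) {u v : N} {s s' : _root_.Fin 1 → List Γ}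
    {l : List (V × Bool)} (h : Run G u s v s' l) (hv : v = G.sink) : Chain G u (s 0) l := by
  induction h with
  | nil u s =>
    subst hv
    exact chain_top (Der.fin (G := toFP G) Fin.top) _
  | test ht _ ih => exact chain_test ht (ih hv)
  | push i a hp _ ih =>
    have hi : i = 0 := Subsingleton.elim _ _
    subst hi
    have := ih hv
    rw [Function.update_self] at this
    exact chain_push hp this
  | pop i a r hp hs _ ih =>
    have hi : i = 0 := Subsingleton.elim _ _
    subst hi
    have := ih hv
    rw [Function.update_self] at this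
    rw [hs]
    exact Or.inr ⟨_, _, [], _, Der.fin (G := toFP G) (Fin.bal _), hp, this, rfl⟩

/-- The runs of a program with one stack are the trees of the program with forks. -/
theorem full_iff (G : Prog V 1 Γ N) (l : List (V × Bool)) :
    G.Full l ↔ Der (toFP G) (toFP G).source l := by
  constructor
  · rintro ⟨s, h⟩
    exact chain_of_run G h rfl
  · intro h
    obtain ⟨s', hs'⟩ := mean_of_der G h []
    exact ⟨_, hs'⟩

lemma block {G : Prog V 1 Γ N} {s : ℕ} (h : G.Blocks s) : (toFP G).Block s := by
  intro v t u he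
  cases he with
  | top ht => exact h _ _ _ ht
  | topPush _ => exact Nat.zero_le _
  | bal ht => exact h _ _ _ ht

lemma accepts_iff (G : Prog V 1 Γ N) (b : V → Bool) : (toFP G).Accepts b ↔ G.Accepts b := by
  unfold FP.Accepts Prog.Accepts
  simp only [full_iff]

lemma card_node (N : Type) [Fintype N] :
    Fintype.card (N ⊕ (N × N)) = Fintype.card N + Fintype.card N ^ 2 := by
  rw [Fintype.card_sum, Fintype.card_prod, sq]

end ONE

end Pool.Agent.STK
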