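import Pool.Agent.Lib_helper20.SRO.Model

/-!
# Nondeterministic programs with stacks

A program is a finite graph with a source and a sink. An edge carries a block of tests (a list of
conditions `x = b`), or pushes a letter on a stack, or pops a letter from a stack. The stacks are
unlimited and the alphabet is arbitrary. An input is accepted if some run from the source, with empty
stacks, to the sink has only tests that the input passes.
-/

set_option autoImplicit false

namespace Pool.Agent.STK

open Finset
open Pool.Agent.Lib_helper20.SRO (Agrees)

/-- A nondeterministic program with nodes `N` and `k` stacks over the alphabet `Γ`. -/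
structure Prog (V : Type) (k : ℕ) (Γ N : Type) where
  source : N
  sink : N
  test : N → List (V × Bool) → N → Prop
  push : N → Fin k → Γ → N → Prop
  pop : N → Fin k → Γ → N → Prop

/-- `Run G u s v s' l`: there is a run from the node `u`, with the stacks `s`, to the node `v`, with
the stacks `s'`, whose tests are, in order, the list `l`. -/
inductive Run {V Γ N : Type} {k : ℕ} (G : Prog V k Γ N) :
    N → (Fin k → List Γ) → N → (Fin k → List Γ) → List (V × Bool) → Prop
  | nil (u : N) (s : Fin k → List Γ) : Run G u s u s []
  | test {u u' v : N} {s s' : Fin k → List Γ} {t l : List (V × Bool)} :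
      G.test u t u' → Run G u' s v s' l → Run G u s v s' (t ++ l)
  | push {u u' v : N} {s s' : Fin k → List Γ} {l : List (V × Bool)} (i : Fin k) (a : Γ) :
      G.push u i a u' → Run G u' (Function.update s i (a :: s i)) v s' l → Run G u s v s' l
  | pop {u u' v : N} {s s' : Fin k → List Γ} {l : List (V × Bool)} (i : Fin k) (a : Γ)
      (r : List Γ) : G.pop u i a u' → s i = a :: r → Run G u' (Function.update s i r) v s' l →
      Run G u s v s' l

variable {V Γ N : Type} {k : ℕ}

/-- `l` is the list of tests of a run from the source, with empty stacks, to the sink. -/
def Prog.Full (G : Prog V k Γ N) (l : List (V × Bool)) : Prop :=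
  ∃ s, Run G G.source (fun _ => []) G.sink s l

/-- `b` is accepted if some run from the source to the sink has only tests that `b` passes. -/
def Prog.Accepts (G : Prog V k Γ N) (b : V → Bool) : Prop := ∃ l, G.Full l ∧ Agrees b l

/-- The program computes the function `f`. -/
def Prog.Computes (G : Prog V k Γ N) (f : (V → Bool) → Bool) : Prop :=
  ∀ b, G.Accepts b ↔ f b = true

/-- Every edge tests at most `r` bits. -/
def Prog.Blocks (G : Prog V k Γ N) (r : ℕ) : Prop := ∀ u t v, G.test u t v → t.length ≤ r

/-- On every run from the source to the sink every variable is tested at most once. -/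
def Prog.ReadOnce (G : Prog V k Γ N) : Prop := ∀ l, G.Full l → (l.map Prod.fst).Nodup

/-- Every accepted input has an accepting run on which at most `r` variables are tested more than
once. (All other runs are arbitrary.) -/
def Prog.FewRereads [Fintype V] [DecidableEq V] (G : Prog V k Γ N) (r : ℕ) : Prop :=
  ∀ b, G.Accepts b → ∃ l, G.Full l ∧ Agrees b l ∧
    (univ.filter (fun x => 2 ≤ (l.map Prod.fst).count x)).card ≤ r

/-- Every accepted input has an accepting run with at most `r` tests more than there are
variables. -/
def Prog.Short [Fintype V] (G : Prog V k Γ N) (r : ℕ) : Prop :=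
  ∀ b, G.Accepts b → ∃ l, G.Full l ∧ Agrees b l ∧ l.length ≤ Fintype.card V + r

end Pool.Agent.STK
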