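import Pool.Agent.STK.Defs
import Pool.Agent.CFT.Defs

/-!
# AND/OR circuits are programs with one stack

A program with forks (an AND/OR circuit over literals, cycles allowed) becomes a program with one
stack: at a fork one of the two nodes is pushed, at a final node a node is popped.
-/

set_option autoImplicit false

namespace Pool.Agent.STK

open Finset
open Pool.Agent.Lib_helper20.SRO (Agrees)
open Pool.Agent.CFT (FP Der)

namespace CIRC

variable {V N : Type}

/-- the nodes: the nodes of the circuit, and start, return, accept -/
abbrev Nd (N : Type) : Type := N ⊕ Fin 3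

/-- test edges -/
inductive TE (G : FP V N) : Nd N → List (V × Bool) → Nd N → Prop
  | edge {u v : N} {t : List (V × Bool)} : G.edge u t v → TE G (Sum.inl u) t (Sum.inl v)
  | fin {u : N} : G.fin u → TE G (Sum.inl u) [] (Sum.inr 1)

/-- push edges -/
inductive PE (G : FP V N) : Nd N → Option N → Nd N → Prop
  | start : PE G (Sum.inr 0) none (Sum.inl G.source)
  | fork {u v w : N} : G.fork u v w → PE G (Sum.inl u) (some w) (Sum.inl v)

/-- pop edges -/
inductive QE (G : FP V N) : Nd N → Option N → Nd N → Prop
  | next (w : N) : QE G (Sum.inr 1) (some w) (Sum.inl w)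
  | stop : QE G (Sum.inr 1) none (Sum.inr 2)

/-- the program with one stack -/
def ofFP (G : FP V N) : Prog V 1 (Option N) (Nd N) where
  source := Sum.inr 0
  sink := Sum.inr 2
  test := TE G
  push u _ a v := PE G u a v
  pop u _ a v := QE G u a v

/-- trees from all nodes of a list -/
inductive All (G : FP V N) : List N → List (V × Bool) → Prop
  | nil : All G [] []
  | cons {u : N} {us : List N} {l l' : List (V × Bool)} : Der G u l → All G us l' →
      All G (u :: us) (l ++ l')

/-- the stack with the pending nodes `us` -/
def stk (us : List N) : List (Option N) := us.map some ++ [none]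

/-- the meaning of a node with pending nodes -/
def Mn (G : FP V N) : Nd N → List N → List (V × Bool) → Prop
  | Sum.inl u, us, l => All G (u :: us) l
  | Sum.inr i, us, l => i = 1 ∧ All G us l

lemma stk_cons (u : N) (us : List N) : stk (u :: us) = some u :: stk us := rfl

lemma upd (s : Fin 1 → List (Option N)) (i : Fin 1) (s' : List (Option N)) :
    Function.update s i s' = fun _ => s' := by
  funext j
  rw [Subsingleton.elim j i, Function.update_self]

lemma trees_of_run {G : FP V N} {u v : Nd N} {s s' : Fin 1 → List (Option N)}
    {l : List (V × Bool)} (h : Run (ofFP G) u s v s' l) (hv : v = Sum.inr 2) :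
    ∀ us : List N, s = (fun _ => stk us) → u ≠ Sum.inr 0 → u ≠ Sum.inr 2 → Mn G u us l := by
  induction h with
  | nil u s =>
    intro us _ _ h2
    exact absurd hv h2
  | @test u u' v s s' t l ht hr ih =>
    intro us hs h0 h2
    have ht' : TE G u t u' := ht
    cases ht' with
    | edge he =>
      have h3 : All G (_ :: us) l := ih hv us hs (by simp) (by simp)
      cases h3 with
      | cons hd ha =>
        show All G (_ :: us) _
        rw [← List.append_assoc]
        exact All.cons (Der.edge he hd) ha
    | fin hf =>
      obtain ⟨-, h3⟩ : Mn G (Sum.inr 1) us l := ih hv us hs (by simp) (by simp)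
      exact All.cons (Der.fin hf) h3
  | @push u u' v s s' l i a hp hr ih =>
    intro us hs h0 h2
    have hp' : PE G u a u' := hp
    cases hp' with
    | start => exact absurd rfl h0
    | @fork u v' w hf =>
      have h3 : All G (v' :: w :: us) l := ih hv (w :: us) (by rw [upd, hs, stk_cons])
        (by simp) (by simp)
      cases h3 with
      | cons hd ha =>
        cases ha with
        | cons hd' ha' =>
          show All G (u :: us) _
          rw [← List.append_assoc]
          exact All.cons (Der.fork hf hd hd') ha'
  | @pop u u' v s s' l i a r hp hs' hr ih =>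
    intro us hs h0 h2
    have hp' : QE G u a u' := hp
    rw [hs] at hs'
    cases hp' with
    | next w =>
      cases us with
      | nil => simp [stk] at hs'
      | cons w' us =>
        rw [stk_cons, List.cons.injEq, Option.some.injEq] at hs'
        obtain ⟨rfl, rfl⟩ := hs'
        have h3 : All G (w' :: us) l := ih hv us (by rw [upd]) (by simp) (by simp)
        exact ⟨rfl, h3⟩
    | stop =>
      cases us with
      | cons w' us => simp [stk] at hs'
      | nil =>
        refine ⟨rfl, ?_⟩
        have h3 : l = [] := by
          cases hr with
          | nil => rfl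
          | test ht _ => exact nomatch (show TE G (Sum.inr 2) _ _ from ht)
          | push _ _ hp _ => exact nomatch (show PE G (Sum.inr 2) _ _ from hp)
          | pop _ _ _ hp _ _ => exact nomatch (show QE G (Sum.inr 2) _ _ from hp)
        rw [h3]
        exact All.nil

lemma run_of_der {G : FP V N} {u : N} {l : List (V × Bool)} (h : Der G u l) :
    ∀ s : List (Option N), Run (ofFP G) (Sum.inl u) (fun _ => s) (Sum.inr 1) (fun _ => s) l := by
  have htr : ∀ {u v w : Nd N} {s s' s'' : Fin 1 → List (Option N)} {l l' : List (V × Bool)},
      Run (ofFP G) u s v s' l → Run (ofFP G) v s' w s'' l' → Run (ofFP G) u s w s'' (l ++ l') := by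
    intro u v w s s' s'' l l' h
    induction h with
    | nil u s => exact fun h' => h'
    | test ht _ ih =>
      intro h'
      rw [List.append_assoc]
      exact Run.test ht (ih h')
    | push i a hp _ ih => exact fun h' => Run.push i a hp (ih h')
    | pop i a r hp hs _ ih => exact fun h' => Run.pop i a r hp hs (ih h')
  induction h with
  | fin hf => exact fun s => Run.test (t := []) (TE.fin hf) (Run.nil _ _)
  | edge he _ ih => exact fun s => Run.test (TE.edge he) (ih s)
  | @fork u v w l₁ l₂ hf _ _ ih1 ih2 =>
    intro s
    refine Run.push 0 (some w) (PE.fork hf) ?_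
    rw [upd]
    refine htr (ih1 _) ?_
    refine Run.pop 0 (some w) s (QE.next w) rfl ?_
    rw [upd]
    exact ih2 s

/-- The full runs are the proof trees: same lists of tests. -/
theorem full_iff (G : FP V N) (l : List (V × Bool)) :
    (ofFP G).Full l ↔ Der G G.source l := by
  constructor
  · rintro ⟨s, h⟩
    have h' : Run (ofFP G) (Sum.inr 0) (fun _ => []) (Sum.inr 2) s l := h
    cases h' with
    | test ht _ => exact nomatch (show TE G (Sum.inr 0) _ _ from ht)
    | pop i a r hp hs _ => simp at hs
    | push i a hp hr =>
      have hp' : PE G (Sum.inr 0) a _ := hp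
      cases hp' with
      | start =>
        have h3 : All G (G.source :: []) l := trees_of_run hr rfl [] (by rw [upd]; rfl)
          (by simp) (by simp)
        cases h3 with
        | cons hd ha =>
          cases ha
          rwa [List.append_nil]
  · intro h
    refine ⟨fun _ => [], Run.push 0 none PE.start ?_⟩
    rw [upd]
    have h1 := run_of_der h [none]
    have h2 : Run (ofFP G) (Sum.inr 1) (fun _ => [none]) (Sum.inr 2) (fun _ => []) [] := by
      refine Run.pop 0 none [] QE.stop rfl ?_
      rw [upd]
      exact Run.nil _ _
    have htr : ∀ {u v w : Nd N} {s s' s'' : Fin 1 → List (Option N)} {l l' : List (V × Bool)},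
        Run (ofFP G) u s v s' l → Run (ofFP G) v s' w s'' l' →
        Run (ofFP G) u s w s'' (l ++ l') := by
      intro u v w s s' s'' l l' h
      induction h with
      | nil u s => exact fun h' => h'
      | test ht _ ih =>
        intro h'
        rw [List.append_assoc]
        exact Run.test ht (ih h')
      | push i a hp _ ih => exact fun h' => Run.push i a hp (ih h')
      | pop i a r hp hs _ ih => exact fun h' => Run.pop i a r hp hs (ih h')
    have h3 := htr h1 h2
    rwa [List.append_nil] at h3

end CIRC

end Pool.Agent.STK
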