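import Pool.Agent.CFT.LOW
import Pool.Agent.URG.Low2

/-!
# Nondeterministic branching programs are programs with forks
-/

set_option autoImplicit false

namespace Pool.Agent.STK

open Finset Pool.Agent.URG
open Pool.Agent.Lib_helper20.SRO (Agrees NBP Walk)
open Pool.Agent.CFT (FP Der CoreP NearlyP)

variable {V N : Type}

/-- A nondeterministic branching program as a program without forks. -/
def flat (G : NBP V N) : FP V N where
  source := G.source
  edge u t v := ∃ o, G.edge u v o ∧ t = o.toList
  fork _ _ _ := False
  fin u := u = G.sink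

lemma walk_of_der {G : NBP V N} {u : N} {l : List (V × Bool)} (h : Der (flat G) u l) :
    Walk G u G.sink l := by
  induction h with
  | fin hf =>
    have hf' : _ = G.sink := hf
    rw [hf']
    exact Walk.nil _
  | edge he _ ih =>
    obtain ⟨o, ho, rfl⟩ := he
    cases o with
    | none => exact Walk.free ho ih
    | some p => exact Walk.test p.1 p.2 ho ih
  | fork hf _ _ _ _ => exact hf.elim

lemma der_of_walk {G : NBP V N} {u v : N} {l : List (V × Bool)} (h : Walk G u v l)
    (hv : v = G.sink) : Der (flat G) u l := by
  induction h with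
  | nil u => exact Der.fin (G := flat G) hv
  | free he _ ih => exact Der.edge (G := flat G) (t := []) ⟨none, he, rfl⟩ (ih hv)
  | test x c he _ ih =>
    exact Der.edge (G := flat G) (t := [(x, c)]) ⟨some (x, c), he, rfl⟩ (ih hv)

lemma der_flat {G : NBP V N} {l : List (V × Bool)} :
    Der (flat G) (flat G).source l ↔ Walk G G.source G.sink l :=
  ⟨walk_of_der, fun h => der_of_walk h rfl⟩

lemma accepts_flat {G : NBP V N} {b : V → Bool} : (flat G).Accepts b ↔ G.Accepts b := by
  unfold FP.Accepts NBP.Accepts
  simp only [der_flat]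

/-- The core for programs with forks contains the core for branching programs. -/
theorem core_of_coreP {W : Type} [DecidableEq W] {c : ℝ} {n L : ℕ}
    {f : (W ⊕ (Fin L × Fin n) → Bool) → Bool} (hc : (1 : ℝ) ≤ c * n) (h : CoreP c n L f) :
    Core c n L f := by
  intro r hr Q _ G hcomp hG
  refine h r 1 hr (by exact_mod_cast hc) Q (flat G) ?_ (fun b => accepts_flat.trans (hcomp b)) ?_
  · rintro u t v ⟨o, _, rfl⟩
    cases o <;> simp
  · rcases hG with hG | hG
    · left
      intro v hv
      obtain ⟨l, hl, hvl, hl2⟩ := hG v (accepts_flat.1 hv)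
      exact ⟨l, der_flat.2 hl, hvl, hl2⟩
    · right
      intro v hv
      obtain ⟨l, hl, hvl, hl2⟩ := hG v (accepts_flat.1 hv)
      exact ⟨l, der_flat.2 hl, hvl, hl2⟩

end Pool.Agent.STK
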