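import Pool.Agent.STK.Defs

/-!
# Nondeterministic branching programs are programs that do not use their stacks
-/

set_option autoImplicit false

namespace Pool.Agent.STK

open Finset
open Pool.Agent.Lib_helper20.SRO (Agrees NBP Walk)

variable {V N Γ : Type} {k : ℕ}

/-- A nondeterministic branching program as a program that does not use its stacks. -/
def ofNBP (k : ℕ) (Γ : Type) (G : NBP V N) : Prog V k Γ N where
  source := G.source
  sink := G.sink
  test u t v := ∃ o, G.edge u v o ∧ t = o.toList
  push _ _ _ _ := False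
  pop _ _ _ _ := False

lemma run_ofNBP {G : NBP V N} {u v : N} {s s' : Fin k → List Γ} {l : List (V × Bool)} :
    Run (ofNBP k Γ G) u s v s' l ↔ s' = s ∧ Walk G u v l := by
  constructor
  · intro h
    induction h with
    | nil u s => exact ⟨rfl, Walk.nil u⟩
    | test ht _ ih =>
      obtain ⟨o, ho, rfl⟩ := ht
      obtain ⟨rfl, ih⟩ := ih
      refine ⟨rfl, ?_⟩
      cases o with
      | none => exact Walk.free ho ih
      | some p => exact Walk.test p.1 p.2 ho ih
    | push i a hp _ _ => exact hp.elim
    | pop i a r hp _ _ _ => exact hp.elim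
  · rintro ⟨rfl, h⟩
    induction h with
    | nil u => exact Run.nil u _
    | free he _ ih => exact Run.test (t := []) ⟨none, he, rfl⟩ ih
    | test x c he _ ih => exact Run.test (t := [(x, c)]) ⟨some (x, c), he, rfl⟩ ih

lemma full_ofNBP {G : NBP V N} {l : List (V × Bool)} :
    (ofNBP k Γ G).Full l ↔ Walk G G.source G.sink l := by
  unfold Prog.Full
  constructor
  · rintro ⟨s, h⟩
    exact (run_ofNBP.1 h).2
  · intro h
    exact ⟨_, run_ofNBP.2 ⟨rfl, h⟩⟩

lemma accepts_ofNBP {G : NBP V N} {b : V → Bool} : (ofNBP k Γ G).Accepts b ↔ G.Accepts b := by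
  unfold Prog.Accepts NBP.Accepts
  simp only [full_ofNBP]

lemma computes_ofNBP {G : NBP V N} {f : (V → Bool) → Bool} :
    (ofNBP k Γ G).Computes f ↔ G.Computes f := by
  unfold Prog.Computes NBP.Computes
  simp only [accepts_ofNBP]

lemma readOnce_ofNBP {G : NBP V N} : (ofNBP k Γ G).ReadOnce ↔ G.SyntacticReadOnce := by
  unfold Prog.ReadOnce NBP.SyntacticReadOnce
  simp only [full_ofNBP]

lemma blocks_ofNBP (G : NBP V N) : (ofNBP k Γ G).Blocks 1 := by
  rintro u t v ⟨o, _, rfl⟩
  cases o <;> simp

end Pool.Agent.STK
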