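import Pool.Agent.STK.One
import Pool.Agent.STK.Nbp
import Pool.Agent.CFT.LOW
import Pool.Agent.URG.Main

/-!
# Lower bounds for programs with one stack
-/

set_option autoImplicit false

namespace Pool.Agent.STK

open Finset Pool.Agent.URG
open Pool.Agent.Lib_helper20.SRO (Agrees NBP)
open Pool.Agent.CFT (FP Der CoreP NearlyP)
open Pool.Agent.HPM.Fn (Coord)

variable {W : Type} [Fintype W] [DecidableEq W] {n L : ℕ}

/-- The lower bound for programs with one stack. -/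
def HardS (c : ℝ) (N : ℕ) (f : (W ⊕ (Fin L × Fin n) → Bool) → Bool) : Prop :=
  ∀ (Γ Q : Type) [Fintype Q] (G : Prog (W ⊕ (Fin L × Fin n)) 1 Γ Q) (r : ℕ), (r : ℝ) ≤ c * N →
    G.Blocks r → G.FewRereads r ∨ G.Short r → G.Computes f → (2 : ℝ) ^ (c * N) ≤ Fintype.card Q

omit [Fintype W] in
lemma nearly_few [Fintype W] {r : ℕ} {Γ Q : Type} (G : Prog (W ⊕ (Fin L × Fin n)) 1 Γ Q)
    (h : G.FewRereads r) : NearlyP (ONE.toFP G) r := by
  left
  intro v hv
  obtain ⟨l, hl, hvl, hc⟩ := h v ((ONE.accepts_iff G v).1 hv)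
  refine ⟨l, (ONE.full_iff G l).1 hl, hvl, le_trans ?_ hc⟩
  refine card_le_card_of_injOn Sum.inr ?_ Sum.inr_injective.injOn
  intro p hp
  rw [mem_coe, mem_filter] at hp ⊢
  exact ⟨mem_univ _, hp.2⟩

lemma nearly_short {r : ℕ} {Γ Q : Type} (G : Prog (W ⊕ (Fin L × Fin n)) 1 Γ Q) (h : G.Short r) :
    NearlyP (ONE.toFP G) (Fintype.card W + r) := by
  right
  intro v hv
  obtain ⟨l, hl, hvl, hc⟩ := h v ((ONE.accepts_iff G v).1 hv)
  refine ⟨l, (ONE.full_iff G l).1 hl, hvl, ?_⟩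
  rw [card_all] at hc
  omega

lemma hardS_of (c0 : ℝ) (h0 : 0 < c0) (h1 : c0 ≤ 1) (hL : 1 ≤ L) (hn : 2 ≤ n)
    (hW : (Fintype.card W : ℝ) ≤ c0 / 4 * (n * L))
    (h12 : (12 * (n * L) : ℝ) ≤ 2 ^ (c0 / 4 * n)) (f : (W ⊕ (Fin L × Fin n) → Bool) → Bool)
    (hlow : CoreP c0 n L f) :
    HardS (c0 / (16 * L)) (Fintype.card (W ⊕ (Fin L × Fin n))) f := by
  have hLR : (1 : ℝ) ≤ L := by exact_mod_cast hL
  have hL0 : (0 : ℝ) < L := by linarith
  have hnR : (2 : ℝ) ≤ n := by exact_mod_cast hn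
  have hn0 : (0 : ℝ) < n := by linarith
  set N := Fintype.card (W ⊕ (Fin L × Fin n)) with hN
  have hNeq : (N : ℝ) = Fintype.card W + n * L := by
    rw [hN, card_all]
    push_cast
    ring
  have hW0 : (0 : ℝ) ≤ Fintype.card W := Nat.cast_nonneg _
  have hnL0 : (0 : ℝ) < n * L := by positivity
  have hN2 : (N : ℝ) ≤ 2 * (n * L) := by
    rw [hNeq]
    nlinarith
  set c : ℝ := c0 / (16 * L) with hc
  have hc0 : 0 < c := by positivity
  have hcN : c * N ≤ c0 / 8 * n := by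
    calc c * N ≤ c * (2 * (n * L)) := by gcongr
      _ = c0 / 8 * n := by
        rw [hc]
        field_simp
        ring
  have hcN2 : c * N ≤ c0 / 8 * (n * L) := by
    refine hcN.trans ?_
    have : (n : ℝ) ≤ n * L := by nlinarith
    have h8 : 0 ≤ c0 / 8 := by positivity
    nlinarith
  intro Γ Q _ G r hr hB hG hcomp
  have hcompF : (ONE.toFP G).Computes f := fun b => (ONE.accepts_iff G b).trans (hcomp b)
  have hrs : (r : ℝ) ≤ c0 * n := hr.trans (hcN.trans (by nlinarith))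
  have key : (2 : ℝ) ^ (c0 * n) ≤ Fintype.card (Q ⊕ (Q × Q)) := by
    rcases hG with hG | hG
    · refine hlow r r ?_ hrs _ (ONE.toFP G) (ONE.block hB) hcompF (nearly_few G hG)
      refine hr.trans (hcN2.trans ?_)
      nlinarith
    · refine hlow (Fintype.card W + r) r ?_ hrs _ (ONE.toFP G) (ONE.block hB) hcompF
        (nearly_short G hG)
      push_cast
      nlinarith
  rw [ONE.card_node] at key
  push_cast at key
  set q : ℝ := (Fintype.card Q : ℝ) with hq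
  have hq0 : 0 ≤ q := Nat.cast_nonneg _
  by_contra hcon
  rw [not_le] at hcon
  have h3 : q < 2 ^ (c0 / 8 * n) :=
    hcon.trans_le (Real.rpow_le_rpow_of_exponent_le one_le_two hcN)
  have h4 : (1 : ℝ) ≤ 2 ^ (c0 / 8 * n) := Real.one_le_rpow one_le_two (by positivity)
  have h5 : (2 : ℝ) ≤ 2 ^ (c0 / 4 * n) := by
    refine le_trans ?_ h12
    nlinarith
  have h6 : (2 : ℝ) ^ (c0 / 4 * n) = 2 ^ (c0 / 8 * n) * 2 ^ (c0 / 8 * n) := by
    rw [← Real.rpow_add (by norm_num)]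
    congr 1
    ring
  have h7 : q + q ^ 2 < 2 * 2 ^ (c0 / 4 * n) := by
    rw [h6]
    nlinarith
  have h8 : (2 : ℝ) * 2 ^ (c0 / 4 * n) ≤ 2 ^ (c0 * n) := by
    calc (2 : ℝ) * 2 ^ (c0 / 4 * n) ≤ 2 ^ (c0 / 4 * n) * 2 ^ (c0 / 4 * n) := by gcongr
      _ = 2 ^ (c0 / 2 * n) := by
        rw [← Real.rpow_add (by norm_num)]
        congr 1
        ring
      _ ≤ _ := Real.rpow_le_rpow_of_exponent_le one_le_two (by nlinarith)
  linarith

/-- The lower bound for AND/OR circuits (programs with forks). -/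
def HardC (c : ℝ) (N : ℕ) (f : (W ⊕ (Fin L × Fin n) → Bool) → Bool) : Prop :=
  ∀ (Q : Type) [Fintype Q] (G : FP (W ⊕ (Fin L × Fin n)) Q) (r : ℕ), (r : ℝ) ≤ c * N →
    G.Block r → G.FewRereads r ∨ G.Short r → G.Computes f → (2 : ℝ) ^ (c * N) ≤ Fintype.card Q

omit [Fintype W] in
lemma nearly_fewC [Fintype W] {r : ℕ} {Q : Type} (G : FP (W ⊕ (Fin L × Fin n)) Q)
    (h : G.FewRereads r) : NearlyP G r := by
  left
  intro v hv
  obtain ⟨l, hl, hvl, hc⟩ := h v hv
  refine ⟨l, hl, hvl, le_trans ?_ hc⟩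
  refine card_le_card_of_injOn Sum.inr ?_ Sum.inr_injective.injOn
  intro p hp
  rw [mem_coe, mem_filter] at hp ⊢
  exact ⟨mem_univ _, hp.2⟩

lemma nearly_shortC {r : ℕ} {Q : Type} (G : FP (W ⊕ (Fin L × Fin n)) Q) (h : G.Short r) :
    NearlyP G (Fintype.card W + r) := by
  right
  intro v hv
  obtain ⟨l, hl, hvl, hc⟩ := h v hv
  refine ⟨l, hl, hvl, ?_⟩
  rw [card_all] at hc
  omega

lemma hardC_of (c0 : ℝ) (h0 : 0 < c0) (h1 : c0 ≤ 1) (hL : 1 ≤ L) (hn : 2 ≤ n)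
    (hW : (Fintype.card W : ℝ) ≤ c0 / 4 * (n * L)) (f : (W ⊕ (Fin L × Fin n) → Bool) → Bool)
    (hlow : CoreP c0 n L f) :
    HardC (c0 / (16 * L)) (Fintype.card (W ⊕ (Fin L × Fin n))) f := by
  have hLR : (1 : ℝ) ≤ L := by exact_mod_cast hL
  have hL0 : (0 : ℝ) < L := by linarith
  have hnR : (2 : ℝ) ≤ n := by exact_mod_cast hn
  have hn0 : (0 : ℝ) < n := by linarith
  set N := Fintype.card (W ⊕ (Fin L × Fin n)) with hN
  have hNeq : (N : ℝ) = Fintype.card W + n * L := by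
    rw [hN, card_all]
    push_cast
    ring
  have hW0 : (0 : ℝ) ≤ Fintype.card W := Nat.cast_nonneg _
  have hnL0 : (0 : ℝ) < n * L := by positivity
  have hN2 : (N : ℝ) ≤ 2 * (n * L) := by
    rw [hNeq]
    nlinarith
  set c : ℝ := c0 / (16 * L) with hc
  have hc0 : 0 < c := by positivity
  have hcN : c * N ≤ c0 / 8 * n := by
    calc c * N ≤ c * (2 * (n * L)) := by gcongr
      _ = c0 / 8 * n := by
        rw [hc]
        field_simp
        ring
  have hcN2 : c * N ≤ c0 / 8 * (n * L) := by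
    refine hcN.trans ?_
    have : (n : ℝ) ≤ n * L := by nlinarith
    have h8 : 0 ≤ c0 / 8 := by positivity
    nlinarith
  intro Q _ G r hr hB hG hcomp
  have hrs : (r : ℝ) ≤ c0 * n := hr.trans (hcN.trans (by nlinarith))
  refine (Real.rpow_le_rpow_of_exponent_le one_le_two (hcN.trans (by nlinarith) :
    c * N ≤ c0 * n)).trans ?_
  rcases hG with hG | hG
  · refine hlow r r ?_ hrs _ G hB hcomp (nearly_fewC G hG)
    refine hr.trans (hcN2.trans ?_)
    nlinarith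
  · refine hlow (Fintype.card W + r) r ?_ hrs _ G hB hcomp (nearly_shortC G hG)
    push_cast
    nlinarith

end Pool.Agent.STK
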