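import Pool.Agent.STK.Main0
import Pool.Agent.CFT.ASM
import Pool.Agent.CFT.CUT
import Pool.Agent.CFT.GRP
import Pool.Agent.CFT.E5
import Pool.Agent.CFT.PAD
import Pool.Agent.CFT.SC
import Pool.Agent.CFT.CNT
import Pool.Agent.CFT.MID
import Pool.Agent.CFT.FIX
import Pool.Agent.CFT.MID2
import Pool.Agent.CFT.AVG

/-!
# The theorems about one stack
-/

set_option autoImplicit false

namespace Pool.Agent.STK

open Finset Pool.Agent.URG
open Pool.Agent.HPM (DecOs)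
open Pool.Agent.HPM.Fn (Coord)
open Pool.Agent.UM (InPP)
open Pool.Agent.CFT (FP)

/-- the core -/
theorem core3 : Core3 :=
  CFT.t_coreP (CFT.t_AVG (CFT.t_MID2 (CFT.t_MID (CFT.t_CNT CFT.t_ASM CFT.t_CUT CFT.t_GRP CFT.t_E5)
    CFT.t_PAD CFT.t_SC) CFT.t_FIX) CFT.t_FIX)

/-- The theorem without polarity bit. -/
theorem mainA : ∃ c : ℝ, 0 < c ∧ ∃ e L κ n0 : ℕ, ∀ n ≥ n0,
    Nonempty (Coord (deg n e)) ∧
    ∀ (β : Coord (deg n e)) (N : ℕ), N = Fintype.card (VarA n e L) →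
    (n * L ≤ N ∧ N ≤ 2 * (n * L)) ∧
    (∃ (Q : Type) (_ : Fintype Q) (G : Prog (VarA n e L) 0 Empty Q), G.Blocks 1 ∧ G.ReadOnce ∧
      G.Computes (fun v => !goodA β v) ∧ Fintype.card Q ≤ N ^ κ) ∧
    (∀ (Γ Q : Type) [Fintype Q] (G : Prog (VarA n e L) 1 Γ Q) (r : ℕ), (r : ℝ) ≤ c * N →
      G.Blocks r → G.FewRereads r ∨ G.Short r → G.Computes (goodA β) →
      (2 : ℝ) ^ (c * N) ≤ Fintype.card Q) ∧
    (∀ (Q : Type) [Fintype Q] (G : FP (VarA n e L) Q) (r : ℕ), (r : ℝ) ≤ c * N →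
      G.Block r → G.FewRereads r ∨ G.Short r → G.Computes (goodA β) →
      (2 : ℝ) ^ (c * N) ≤ Fintype.card Q) := mainA0 core3

/-- The theorem with polarity bit. -/
theorem mainF : ∃ c : ℝ, 0 < c ∧ ∃ e L κ n0 : ℕ, ∀ n ≥ n0,
    Nonempty (Coord (deg n e)) ∧
    ∀ (β : Coord (deg n e)) (N : ℕ), N = Fintype.card (VarG n e L) →
    (n * L ≤ N ∧ N ≤ 2 * (n * L)) ∧
    (∀ (Γ Q : Type) [Fintype Q] (G : Prog (VarG n e L) 1 Γ Q) (r : ℕ), (r : ℝ) ≤ c * N →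
      G.Blocks r → G.FewRereads r ∨ G.Short r →
      G.Computes (goodF β) ∨ G.Computes (fun v => !goodF β v) →
      (2 : ℝ) ^ (c * N) ≤ Fintype.card Q) ∧
    (∀ (s b T : ℕ) (V : Type) [Fintype V], (s : ℝ) ≤ c * N → (T * s : ℝ) ≤ (1 + c) * N →
      InNPg s b (VarG n e L) V T (fun v => goodF β v = true) ∨
        InNPg s b (VarG n e L) V T (fun v => goodF β v = false) →
      (2 : ℝ) ^ (c * N) ≤ Fintype.card V) ∧
    ∃ (V : Type) (_ : Fintype V) (w : ℕ), Fintype.card V ≤ N ^ κ ∧ 2 ^ w ≤ N ^ κ ∧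
      ∀ (s T : ℕ) (σ : Fin T → Fin s → VarG n e L), (∀ i, ∃ t j, σ t j = i) →
        InPP (DecOs s (VarG n e L) V T σ) w (fun v => goodF β v = true) := mainF0 core3

end Pool.Agent.STK
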