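import Pool.Agent.STK.Defs

/-!
# Two stacks suffice for all nondeterministic circuits
-/

set_option autoImplicit false

namespace Pool.Agent.STK

open Finset
open Pool.Agent.Lib_helper20.SRO (Agrees)

/-- The values of a circuit of NAND gates: `vs` are the values so far, the gate `(i, j)` computes the
NAND of the values number `i` and `j` (a value that does not exist counts as `false`). -/
def nandVals : List (ℕ × ℕ) → List Bool → List Bool
  | [], vs => vs
  | g :: gs, vs => nandVals gs (vs ++ [!(vs.getD g.1 false && vs.getD g.2 false)])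

/-- The nondeterministic circuit with `M` inputs, `t` guessed bits and the NAND gates `gs` accepts
`x`: for some values of the guessed bits the last value is `true`. -/
def NandAccepts {M : ℕ} (t : ℕ) (gs : List (ℕ × ℕ)) (x : Fin M → Bool) : Prop :=
  ∃ y : List Bool, y.length = t ∧ (nandVals gs (List.ofFn x ++ y)).getLast? = some true

namespace TWO

/-- the memory of the program: three bits -/
abbrev Mem : Type := Bool × Bool × Bool

/-- instructions -/
inductive Ins (V : Type) : Type
  | test (x : V)
  | guess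
  | set (f : Mem → Mem)
  | push (i : Fin 2) (g : Mem → Bool)
  | pop (i : Fin 2) (f : Mem → Bool → Mem)

variable {V : Type}

/-- the meaning of a list of instructions -/
def Sem : List (Ins V) → Mem → (Fin 2 → List Bool) → Mem → (Fin 2 → List Bool) →
    List (V × Bool) → Prop
  | [], m, s, m', s', l => m' = m ∧ s' = s ∧ l = []
  | Ins.test x :: P, m, s, m', s', l => ∃ b l', l = (x, b) :: l' ∧ Sem P (b, m.2) s m' s' l'
  | Ins.guess :: P, m, s, m', s', l => ∃ b, Sem P (b, m.2) s m' s' l
  | Ins.set f :: P, m, s, m', s', l => Sem P (f m) s m' s' l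
  | Ins.push i g :: P, m, s, m', s', l => Sem P m (Function.update s i (g m :: s i)) m' s' l
  | Ins.pop i f :: P, m, s, m', s', l =>
      ∃ a r, s i = a :: r ∧ Sem P (f m a) (Function.update s i r) m' s' l

/-- the test edges of an instruction -/
def TE : Option (Ins V) → Mem → List (V × Bool) → Mem → Prop
  | some (Ins.test x), m, t, m' => ∃ b, t = [(x, b)] ∧ m' = (b, m.2)
  | some Ins.guess, m, t, m' => t = [] ∧ ∃ b, m' = (b, m.2)
  | some (Ins.set f), m, t, m' => t = [] ∧ m' = f m
  | _, _, _, _ => False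

/-- the program of a list of instructions -/
def code (P : List (Ins V)) : Prog V 2 Bool (Fin (P.length + 1) × Mem) where
  source := (0, (false, false, false))
  sink := (Fin.last _, (true, false, false))
  test u t v := (v.1 : ℕ) = u.1 + 1 ∧ TE P[(u.1 : ℕ)]? u.2 t v.2
  push u i a v := (v.1 : ℕ) = u.1 + 1 ∧ ∃ g, P[(u.1 : ℕ)]? = some (Ins.push i g) ∧ a = g u.2 ∧
    v.2 = u.2
  pop u i a v := (v.1 : ℕ) = u.1 + 1 ∧ ∃ f, P[(u.1 : ℕ)]? = some (Ins.pop i f) ∧ v.2 = f u.2 a

lemma drop_eq {P : List (Ins V)} {k : ℕ} {a : Ins V} (h : P[k]? = some a) :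
    P.drop k = a :: P.drop (k + 1) := by
  obtain ⟨hk, rfl⟩ := List.getElem?_eq_some_iff.1 h
  exact List.drop_eq_getElem_cons hk

lemma sem_of_run {P : List (Ins V)} {u v : Fin (P.length + 1) × Mem} {s s' : Fin 2 → List Bool}
    {l : List (V × Bool)} (h : Run (code P) u s v s' l) (hv : v.1 = Fin.last _) :
    Sem (P.drop u.1) u.2 s v.2 s' l := by
  induction h with
  | nil u s =>
    rw [hv, Fin.val_last, List.drop_length]
    exact ⟨rfl, rfl, rfl⟩
  | @test u u' v s s' t l ht _ ih =>
    obtain ⟨h1, h2⟩ := ht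
    have ih := ih hv
    rw [h1] at ih
    rcases ho : P[(u.1 : ℕ)]? with _ | a
    · rw [ho] at h2
      exact h2.elim
    · rw [ho] at h2
      rw [drop_eq ho]
      cases a with
      | test x =>
        obtain ⟨b, rfl, h4⟩ := h2
        rw [h4] at ih
        exact ⟨b, l, rfl, ih⟩
      | guess =>
        obtain ⟨rfl, b, h4⟩ := h2
        rw [h4] at ih
        exact ⟨b, ih⟩
      | set f =>
        obtain ⟨rfl, h4⟩ := h2
        rw [h4] at ih
        exact ih
      | push i g => exact h2.elim
      | pop i f => exact h2.elim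
  | @push u u' v s s' l i a hp _ ih =>
    obtain ⟨h1, g, h2, rfl, h4⟩ := hp
    have ih := ih hv
    rw [h1, h4] at ih
    rw [drop_eq h2]
    exact ih
  | @pop u u' v s s' l i a r hp hs _ ih =>
    obtain ⟨h1, f, h2, h4⟩ := hp
    have ih := ih hv
    rw [h1, h4] at ih
    rw [drop_eq h2]
    exact ⟨a, r, hs, ih⟩

lemma run_of_sem {P : List (Ins V)} {m' : Mem} {s' : Fin 2 → List Bool} : ∀ (d : ℕ)
    (k : Fin (P.length + 1)) (m : Mem) (s : Fin 2 → List Bool) (l : List (V × Bool)),
    (k : ℕ) + d = P.length → Sem (P.drop k) m s m' s' l →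
    Run (code P) (k, m) s (Fin.last _, m') s' l := by
  intro d
  induction d with
  | zero =>
    intro k m s l hk h
    have hk' : k = Fin.last _ := Fin.ext (by rw [Fin.val_last]; omega)
    subst hk'
    rw [Fin.val_last, List.drop_length] at h
    obtain ⟨rfl, rfl, rfl⟩ := h
    exact Run.nil _ _
  | succ d ih =>
    intro k m s l hk h
    have hlt : (k : ℕ) < P.length := by omega
    rw [List.drop_eq_getElem_cons hlt] at h
    have ho : P[(k : ℕ)]? = some P[(k : ℕ)] := List.getElem?_eq_getElem hlt
    have hk1 : (k : ℕ) + 1 < P.length + 1 := by omega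
    have ih := ih ⟨k + 1, hk1⟩
    have hsum : ((⟨(k : ℕ) + 1, hk1⟩ : Fin (P.length + 1)) : ℕ) + d = P.length := by
      simp only
      omega
    generalize P[(k : ℕ)] = a at h ho
    cases a with
    | test x =>
      obtain ⟨b, l', rfl, h⟩ := h
      exact Run.test (u := (k, m)) (t := [(x, b)]) ⟨rfl, by
        rw [ho]
        exact ⟨b, rfl, rfl⟩⟩ (ih (b, m.2) s l' hsum h)
    | guess =>
      obtain ⟨b, h⟩ := h
      exact Run.test (u := (k, m)) (t := []) ⟨rfl, by
        rw [ho]
        exact ⟨rfl, b, rfl⟩⟩ (ih (b, m.2) s l hsum h)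
    | set f =>
      exact Run.test (u := (k, m)) (t := []) ⟨rfl, by
        rw [ho]
        exact ⟨rfl, rfl⟩⟩ (ih (f m) s l hsum h)
    | push i g =>
      exact Run.push (u := (k, m)) (u' := (⟨k + 1, hk1⟩, m)) i (g m) ⟨rfl, g, ho, rfl, rfl⟩
        (ih m _ l hsum h)
    | pop i f =>
      obtain ⟨a, r, hs, h⟩ := h
      exact Run.pop (u := (k, m)) (u' := (⟨k + 1, hk1⟩, f m a)) i a r ⟨rfl, f, ho, rfl⟩ hs
        (ih (f m a) _ l hsum h)

lemma full_code {P : List (Ins V)} {l : List (V × Bool)} : (code P).Full l ↔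
    ∃ s', Sem P (false, false, false) (fun _ => []) (true, false, false) s' l := by
  constructor
  · rintro ⟨s', h⟩
    have := sem_of_run h rfl
    exact ⟨s', this⟩
  · rintro ⟨s', h⟩
    exact ⟨s', run_of_sem P.length 0 _ _ _ (by simp) (by simpa using h)⟩

lemma sem_append {P Q : List (Ins V)} : ∀ {m m' : Mem} {s s' : Fin 2 → List Bool}
    {l : List (V × Bool)}, Sem (P ++ Q) m s m' s' l ↔
    ∃ m1 s1 l1 l2, Sem P m s m1 s1 l1 ∧ Sem Q m1 s1 m' s' l2 ∧ l = l1 ++ l2 := by
  induction P with
  | nil =>
    intro m m' s s' l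
    constructor
    · intro h
      exact ⟨m, s, [], l, ⟨rfl, rfl, rfl⟩, h, rfl⟩
    · rintro ⟨m1, s1, l1, l2, ⟨rfl, rfl, rfl⟩, h, rfl⟩
      exact h
  | cons a P ih =>
    intro m m' s s' l
    cases a with
    | test x =>
      simp only [List.cons_append, Sem]
      constructor
      · rintro ⟨b, l', rfl, h⟩
        obtain ⟨m1, s1, l1, l2, h1, h2, rfl⟩ := ih.1 h
        exact ⟨m1, s1, (x, b) :: l1, l2, ⟨b, l1, rfl, h1⟩, h2, rfl⟩
      · rintro ⟨m1, s1, l1, l2, ⟨b, l', rfl, h1⟩, h2, rfl⟩
        exact ⟨b, l' ++ l2, rfl, ih.2 ⟨m1, s1, l', l2, h1, h2, rfl⟩⟩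
    | guess =>
      simp only [List.cons_append, Sem]
      constructor
      · rintro ⟨b, h⟩
        obtain ⟨m1, s1, l1, l2, h1, h2, rfl⟩ := ih.1 h
        exact ⟨m1, s1, l1, l2, ⟨b, h1⟩, h2, rfl⟩
      · rintro ⟨m1, s1, l1, l2, ⟨b, h1⟩, h2, rfl⟩
        exact ⟨b, ih.2 ⟨m1, s1, l1, l2, h1, h2, rfl⟩⟩
    | set f => simp only [List.cons_append, Sem, ih]
    | push i g => simp only [List.cons_append, Sem, ih]
    | pop i f =>
      simp only [List.cons_append, Sem]
      constructor
      · rintro ⟨a, r, hs, h⟩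
        obtain ⟨m1, s1, l1, l2, h1, h2, rfl⟩ := ih.1 h
        exact ⟨m1, s1, l1, l2, ⟨a, r, hs, h1⟩, h2, rfl⟩
      · rintro ⟨m1, s1, l1, l2, ⟨a, r, hs, h1⟩, h2, rfl⟩
        exact ⟨a, r, hs, ih.2 ⟨m1, s1, l1, l2, h1, h2, rfl⟩⟩

/-! ### The program -/

/-- two stacks -/
def st (s t : List Bool) : Fin 2 → List Bool := ![s, t]

lemma st_zero (s t : List Bool) : st s t 0 = s := rfl
lemma st_one (s t : List Bool) : st s t 1 = t := rfl

lemma upd_zero (s t r : List Bool) : Function.update (st s t) 0 r = st r t := by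
  funext j
  fin_cases j <;> rfl

lemma upd_one (s t r : List Bool) : Function.update (st s t) 1 r = st s r := by
  funext j
  fin_cases j <;> rfl

/-- read the variables of the list and push their values -/
def rd : List V → List (Ins V)
  | [] => []
  | x :: xs => Ins.test x :: Ins.push 0 Prod.fst :: rd xs

/-- guess `n` bits and push them -/
def gu : ℕ → List (Ins V)
  | 0 => []
  | n + 1 => Ins.guess :: Ins.push 0 Prod.fst :: gu n

/-- move `n` bits to the second stack, remembering the bits number `i` and `j` -/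
def dn (i j : ℕ) : ℕ → List (Ins V)
  | 0 => []
  | n + 1 => Ins.pop 0 (fun m a => (a, if n = i then a else m.2.1, if n = j then a else m.2.2)) ::
      Ins.push 1 Prod.fst :: dn i j n

/-- move `n` bits back -/
def up : ℕ → List (Ins V)
  | 0 => []
  | n + 1 => Ins.pop 1 (fun m a => (a, m.2)) :: Ins.push 0 Prod.fst :: up n

/-- the gate `(i, j)` if there are `n` values -/
def gate (i j n : ℕ) : List (Ins V) :=
  Ins.set (fun _ => (false, false, false)) :: (dn i j n ++ (up n ++
    [Ins.push 0 (fun m => !(m.2.1 && m.2.2))]))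

/-- all gates -/
def gates : List (ℕ × ℕ) → ℕ → List (Ins V)
  | [], _ => []
  | g :: gs, n => gate g.1 g.2 n ++ gates gs (n + 1)

lemma sem_rd {xs : List V} : ∀ {m m' : Mem} {s t : List Bool} {s' : Fin 2 → List Bool}
    {l : List (V × Bool)}, Sem (rd xs) m (st s t) m' s' l ↔
    ∃ bs : List Bool, bs.length = xs.length ∧ l = xs.zip bs ∧ s' = st (bs.reverse ++ s) t ∧
      m' = (bs.getLastD m.1, m.2) := by
  induction xs with
  | nil =>
    intro m m' s t s' l
    simp only [rd, Sem]
    constructor
    · rintro ⟨rfl, rfl, rfl⟩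
      exact ⟨[], rfl, rfl, rfl, rfl⟩
    · rintro ⟨bs, h1, h2, h3, h4⟩
      have : bs = [] := List.length_eq_zero_iff.1 h1
      subst this
      exact ⟨h4, h3, h2⟩
  | cons x xs ih =>
    intro m m' s t s' l
    simp only [rd, Sem, upd_zero, st_zero]
    constructor
    · rintro ⟨b, l', rfl, h⟩
      obtain ⟨bs, h1, rfl, rfl, rfl⟩ := ih.1 h
      exact ⟨b :: bs, by simp [h1], rfl, by simp, by rw [List.getLastD_cons]⟩
    · rintro ⟨bs, h1, rfl, rfl, rfl⟩
      cases bs with
      | nil => simp at h1
      | cons b bs =>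
        exact ⟨b, xs.zip bs, rfl, ih.2 ⟨bs, by simpa using h1, rfl, by simp, by
          rw [List.getLastD_cons]⟩⟩

lemma sem_gu : ∀ {n : ℕ} {m m' : Mem} {s t : List Bool} {s' : Fin 2 → List Bool}
    {l : List (V × Bool)}, Sem (gu n) m (st s t) m' s' l ↔
    ∃ bs : List Bool, bs.length = n ∧ l = [] ∧ s' = st (bs.reverse ++ s) t ∧
      m' = (bs.getLastD m.1, m.2) := by
  intro n
  induction n with
  | zero =>
    intro m m' s t s' l
    simp only [gu, Sem]
    constructor
    · rintro ⟨rfl, rfl, rfl⟩
      exact ⟨[], rfl, rfl, rfl, rfl⟩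
    · rintro ⟨bs, h1, h2, h3, h4⟩
      have : bs = [] := List.length_eq_zero_iff.1 h1
      subst this
      exact ⟨h4, h3, h2⟩
  | succ n ih =>
    intro m m' s t s' l
    simp only [gu, Sem, upd_zero, st_zero]
    constructor
    · rintro ⟨b, h⟩
      obtain ⟨bs, h1, rfl, rfl, rfl⟩ := ih.1 h
      exact ⟨b :: bs, by simp [h1], rfl, by simp, by rw [List.getLastD_cons]⟩
    · rintro ⟨bs, h1, rfl, rfl, rfl⟩
      cases bs with
      | nil => simp at h1
      | cons b bs =>
        exact ⟨b, ih.2 ⟨bs, by simpa using h1, rfl, by simp, by rw [List.getLastD_cons]⟩⟩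

lemma sem_dn {i j : ℕ} {m' : Mem} {s' : Fin 2 → List Bool} {l : List (V × Bool)} : ∀ {n : ℕ}
    {m : Mem} {t : List Bool} {vs : List Bool}, vs.length = n →
    (Sem (dn i j n) m (st vs.reverse t) m' s' l ↔
      m' = (if n = 0 then m.1 else vs.getD 0 false, if i < n then vs.getD i false else m.2.1,
        if j < n then vs.getD j false else m.2.2) ∧ s' = st [] (vs ++ t) ∧ l = []) := by
  intro n
  induction n with
  | zero =>
    intro m t vs hvs
    have : vs = [] := List.length_eq_zero_iff.1 hvs
    subst this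
    simp only [dn, Sem, List.reverse_nil, List.nil_append, Nat.not_lt_zero, if_false, if_true]
  | succ n ih =>
    intro m t vs hvs
    obtain ⟨ws, a, rfl⟩ : ∃ ws a, vs = ws ++ [a] := by
      refine ⟨vs.dropLast, vs.getLast (by intro h; rw [h] at hvs; simp at hvs), ?_⟩
      exact (List.dropLast_append_getLast _).symm
    have hws : ws.length = n := by simpa using hvs
    simp only [dn, Sem, st_zero, st_one, List.reverse_append, List.reverse_singleton,
      List.singleton_append, List.cons.injEq, upd_zero, upd_one]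
    have hget : ∀ k, (ws ++ [a]).getD k false = if k < n then ws.getD k false else
        if k = n then a else false := by
      intro k
      rcases lt_trichotomy k n with h | h | h
      · rw [if_pos h, List.getD_append _ _ _ _ (by omega)]
      · subst h
        rw [if_neg (lt_irrefl _), if_pos rfl, List.getD_append_right _ _ _ _ (by omega), hws]
        simp
      · rw [if_neg (by omega), if_neg (by omega), List.getD_eq_default]
        simp
        omega
    have key : ∀ (k : ℕ) (x : Bool), (if k < n then ws.getD k false else if n = k then a else x) =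
        if k < n + 1 then (ws ++ [a]).getD k false else x := by
      intro k x
      rw [hget]
      rcases lt_trichotomy k n with h | h | h
      · rw [if_pos h, if_pos (by omega), if_pos h]
      · subst h
        rw [if_neg (lt_irrefl _), if_pos rfl, if_pos (by omega), if_neg (lt_irrefl _), if_pos rfl]
      · rw [if_neg (by omega), if_neg (by omega), if_neg (by omega)]
    have key0 : (if n = 0 then a else ws.getD 0 false) =
        if n + 1 = 0 then m.1 else (ws ++ [a]).getD 0 false := by
      rw [if_neg (Nat.succ_ne_zero n), hget]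
      rcases Nat.eq_zero_or_pos n with h | h
      · rw [if_pos h, if_neg (by omega), if_pos h.symm]
      · rw [if_neg (by omega), if_pos h]
    constructor
    · rintro ⟨a', r, ⟨rfl, rfl⟩, h⟩
      obtain ⟨rfl, rfl, rfl⟩ := (ih hws).1 h
      refine ⟨?_, by simp, rfl⟩
      rw [← key, ← key, ← key0]
    · rintro ⟨rfl, rfl, rfl⟩
      refine ⟨a, ws.reverse, ⟨rfl, rfl⟩, (ih hws).2 ⟨?_, by simp, rfl⟩⟩
      rw [← key, ← key, ← key0]

lemma sem_up {m' : Mem} {s' : Fin 2 → List Bool} {l : List (V × Bool)} : ∀ {n : ℕ}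
    {m : Mem} {s t : List Bool} {vs : List Bool}, vs.length = n →
    (Sem (up n) m (st s (vs ++ t)) m' s' l ↔
      m' = (vs.getLastD m.1, m.2) ∧ s' = st (vs.reverse ++ s) t ∧ l = []) := by
  intro n
  induction n with
  | zero =>
    intro m s t vs hvs
    have : vs = [] := List.length_eq_zero_iff.1 hvs
    subst this
    simp only [up, Sem, List.nil_append, List.reverse_nil, List.getLastD_nil]
  | succ n ih =>
    intro m s t vs hvs
    cases vs with
    | nil => simp at hvs
    | cons a vs =>
      have hvs' : vs.length = n := by simpa using hvs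
      simp only [up, Sem, st_zero, st_one, List.cons_append, List.cons.injEq, upd_zero, upd_one]
      constructor
      · rintro ⟨a', r, ⟨rfl, rfl⟩, h⟩
        obtain ⟨rfl, rfl, rfl⟩ := (ih hvs').1 h
        exact ⟨by rw [List.getLastD_cons], by simp, rfl⟩
      · rintro ⟨rfl, rfl, rfl⟩
        exact ⟨a, vs ++ t, ⟨rfl, rfl⟩, (ih hvs').2 ⟨by rw [List.getLastD_cons], by simp, rfl⟩⟩

/-- the memory after a gate -/
def gm (i j : ℕ) (vs : List Bool) : Mem :=
  (vs.getLastD (if vs.length = 0 then false else vs.getD 0 false), vs.getD i false,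
    vs.getD j false)

lemma getD_eq (vs : List Bool) (k : ℕ) :
    (if k < vs.length then vs.getD k false else false) = vs.getD k false := by
  split_ifs with hk
  · rfl
  · rw [List.getD_eq_default]
    omega

lemma sem_gate {i j : ℕ} {m m' : Mem} {s' : Fin 2 → List Bool} {l : List (V × Bool)}
    {vs : List Bool} : Sem (gate i j vs.length) m (st vs.reverse []) m' s' l ↔
    m' = gm i j vs ∧
    s' = st (vs ++ [!(vs.getD i false && vs.getD j false)]).reverse [] ∧ l = [] := by
  simp only [gate, Sem, sem_append, gm]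
  constructor
  · rintro ⟨m1, s1, l1, l2, h1, ⟨m2, s2, l3, l4, h3, h4, rfl⟩, rfl⟩
    obtain ⟨rfl, rfl, rfl⟩ := (sem_dn rfl).1 h1
    obtain ⟨rfl, rfl, rfl⟩ := (sem_up rfl).1 h3
    simp only [st_zero, upd_zero] at h4
    obtain ⟨rfl, rfl, rfl⟩ := h4
    simp only [getD_eq, List.reverse_append, List.reverse_singleton, List.singleton_append,
      List.append_nil, and_self]
  · rintro ⟨rfl, rfl, rfl⟩
    refine ⟨_, _, [], [], (sem_dn rfl).2 ⟨rfl, rfl, rfl⟩, ⟨_, _, [], [],
      (sem_up rfl).2 ⟨rfl, rfl, rfl⟩, ⟨?_, ?_, rfl⟩, rfl⟩, rfl⟩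
    · simp only [getD_eq]
    · simp only [getD_eq, st_zero, upd_zero, List.reverse_append, List.reverse_singleton,
        List.singleton_append, List.append_nil]

/-- the memory after all gates -/
def gms : List (ℕ × ℕ) → Mem → List Bool → Mem
  | [], m, _ => m
  | g :: gs, _, vs => gms gs (gm g.1 g.2 vs) (vs ++ [!(vs.getD g.1 false && vs.getD g.2 false)])

lemma sem_gates : ∀ {gs : List (ℕ × ℕ)} {m m' : Mem} {s' : Fin 2 → List Bool}
    {l : List (V × Bool)} {vs : List Bool}, Sem (gates gs vs.length) m (st vs.reverse []) m' s' l ↔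
    m' = gms gs m vs ∧ s' = st (nandVals gs vs).reverse [] ∧ l = [] := by
  intro gs
  induction gs with
  | nil => intro m m' s' l vs; rfl
  | cons g gs ih =>
    intro m m' s' l vs
    simp only [gates, sem_append, gms, nandVals]
    have hlen : vs.length + 1 = (vs ++ [!(vs.getD g.1 false && vs.getD g.2 false)]).length := by
      simp
    constructor
    · rintro ⟨m1, s1, l1, l2, h1, h2, rfl⟩
      obtain ⟨rfl, rfl, rfl⟩ := sem_gate.1 h1
      rw [hlen] at h2
      exact ih.1 h2
    · rintro ⟨rfl, rfl, rfl⟩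
      refine ⟨_, _, [], [], sem_gate.2 ⟨rfl, rfl, rfl⟩, ?_, rfl⟩
      rw [hlen]
      exact ih.2 ⟨rfl, rfl, rfl⟩

/-- the whole list of instructions -/
def prog (M t : ℕ) (gs : List (ℕ × ℕ)) : List (Ins (Fin M)) :=
  rd (List.finRange M) ++ (gu t ++ (gates gs (M + t) ++
    [Ins.pop 0 (fun _ a => (a, false, false))]))

lemma zip_eq {M : ℕ} (x : Fin M → Bool) (bs : List Bool) (h : bs.length = M) :
    Agrees x ((List.finRange M).zip bs) ↔ bs = List.ofFn x := by
  constructor
  · intro hx
    apply List.ext_getElem (by simp [h])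
    intro k h1 h2
    have hk : k < ((List.finRange M).zip bs).length := by simp [h] at h1 ⊢; omega
    have := hx _ (List.getElem_mem hk)
    simp only [List.getElem_zip, List.getElem_finRange] at this
    rw [← this]
    simp
  · rintro rfl p hp
    obtain ⟨k, hk, rfl⟩ := List.getElem_of_mem hp
    simp [List.getElem_zip]

lemma full_prog {M t : ℕ} {gs : List (ℕ × ℕ)} {l : List (Fin M × Bool)} :
    (code (prog M t gs)).Full l ↔ ∃ bs ys : List Bool, bs.length = M ∧ ys.length = t ∧
      l = (List.finRange M).zip bs ∧ (nandVals gs (bs ++ ys)).getLast? = some true := by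
  rw [full_code]
  have hst : (fun _ => [] : Fin 2 → List Bool) = st [] [] := by
    funext j
    fin_cases j <;> rfl
  simp only [prog, sem_append, hst]
  constructor
  · rintro ⟨s', m1, s1, l1, l2, h1, ⟨m2, s2, l3, l4, h2, ⟨m3, s3, l5, l6, h3, h4, rfl⟩, rfl⟩, rfl⟩
    obtain ⟨bs, hb, rfl, rfl, rfl⟩ := sem_rd.1 h1
    obtain ⟨ys, hy, rfl, rfl, rfl⟩ := sem_gu.1 h2
    have e1 : ys.reverse ++ (bs.reverse ++ []) = (bs ++ ys).reverse := by simp
    have e2 : M + t = (bs ++ ys).length := by
      rw [List.length_append, hy, hb, List.length_finRange]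
    rw [e1, e2] at h3
    obtain ⟨rfl, rfl, rfl⟩ := sem_gates.1 h3
    simp only [Sem, st_zero] at h4
    obtain ⟨a, r, h5, h6, h7, rfl⟩ := h4
    refine ⟨bs, ys, by rw [hb, List.length_finRange], hy, by simp, ?_⟩
    have h8 : a = true := by
      have := congrArg Prod.fst h6
      exact this.symm
    rw [← List.head?_reverse, h5, h8]
    rfl
  · rintro ⟨bs, ys, hb, hy, rfl, h⟩
    obtain ⟨r, hr⟩ : ∃ r, (nandVals gs (bs ++ ys)).reverse = true :: r := by
      rw [← List.head?_reverse] at h
      exact ⟨_, (List.head?_eq_some_iff.1 h).choose_spec⟩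
    have e1 : ys.reverse ++ (bs.reverse ++ []) = (bs ++ ys).reverse := by simp
    have e2 : M + t = (bs ++ ys).length := by
      rw [List.length_append, hy, hb]
    refine ⟨st r [], _, _, _, _, sem_rd.2 ⟨bs, by rw [hb, List.length_finRange], rfl, rfl, rfl⟩,
      ⟨_, _, _, [], sem_gu.2 ⟨ys, hy, rfl, rfl, rfl⟩,
        ⟨gms gs (ys.getLastD (bs.getLastD false), false, false) (bs ++ ys),
          st (nandVals gs (bs ++ ys)).reverse [], [], [], ?_, ⟨true, r, ?_, ?_⟩, rfl⟩, rfl⟩, ?_⟩
    · rw [e1, e2]
      exact sem_gates.2 ⟨rfl, rfl, rfl⟩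
    · rw [st_zero, hr]
    · refine ⟨rfl, ?_, rfl⟩
      rw [upd_zero]
    · simp

lemma length_rd (xs : List V) : (rd xs).length = 2 * xs.length := by
  induction xs with
  | nil => rfl
  | cons x xs ih =>
    simp only [rd, List.length_cons, ih]
    omega

lemma length_gu (n : ℕ) : (gu (V := V) n).length = 2 * n := by
  induction n with
  | zero => rfl
  | succ n ih =>
    simp only [gu, List.length_cons, ih]
    omega

lemma length_dn (i j n : ℕ) : (dn (V := V) i j n).length = 2 * n := by
  induction n with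
  | zero => rfl
  | succ n ih =>
    simp only [dn, List.length_cons, ih]
    omega

lemma length_up (n : ℕ) : (up (V := V) n).length = 2 * n := by
  induction n with
  | zero => rfl
  | succ n ih =>
    simp only [up, List.length_cons, ih]
    omega

lemma length_gates (gs : List (ℕ × ℕ)) : ∀ (n : ℕ), (gates (V := V) gs n).length ≤
    gs.length * (4 * (n + gs.length) + 2) := by
  induction gs with
  | nil => intro n; simp [gates]
  | cons g gs ih =>
    intro n
    have h1 := ih (n + 1)
    simp only [gates, gate, List.length_append, List.length_cons, length_dn, length_up,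
      List.length_nil]
    have h2 : gs.length * (4 * (n + 1 + gs.length) + 2) + (4 * n + 2) ≤
        (gs.length + 1) * (4 * (n + (gs.length + 1)) + 2) := by
      nlinarith
    omega

theorem card_prog (M t : ℕ) (gs : List (ℕ × ℕ)) :
    Fintype.card (Fin ((prog M t gs).length + 1) × Mem) ≤ 32 * (M + t + gs.length + 1) ^ 2 := by
  have h1 := length_gates (V := Fin M) gs (M + t)
  have h2 : (prog M t gs).length = 2 * M + (2 * t + ((gates (V := Fin M) gs (M + t)).length + 1)) := by
    simp only [prog, List.length_append, length_rd, length_gu, List.length_finRange,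
      List.length_cons, List.length_nil]
  have h3 : Fintype.card Mem = 8 := rfl
  rw [Fintype.card_prod, Fintype.card_fin, h3, h2]
  nlinarith

end TWO

/-- **With two stacks near read-once is no restriction**: a nondeterministic circuit with `M` inputs,
`t` guessed bits and the NAND gates `gs` has an equivalent program with two stacks over the alphabet
`{0, 1}`, at most `32 (M + t + |gs| + 1) ^ 2` nodes and single tests, in which every variable is tested
at most once on every run. -/
theorem two_stacks (M t : ℕ) (gs : List (ℕ × ℕ)) : ∃ (N : Type) (_ : Fintype N)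
    (G : Prog (Fin M) 2 Bool N), G.Blocks 1 ∧ G.ReadOnce ∧ (∀ x, G.Accepts x ↔ NandAccepts t gs x) ∧
      Fintype.card N ≤ 32 * (M + t + gs.length + 1) ^ 2 := by
  refine ⟨_, inferInstance, TWO.code (TWO.prog M t gs), ?_, ?_, ?_, TWO.card_prog M t gs⟩
  · rintro u l v ⟨_, h⟩
    generalize (TWO.prog M t gs)[(u.1 : ℕ)]? = o at h
    rcases o with _ | a
    · exact h.elim
    · cases a with
      | test x =>
        obtain ⟨b, rfl, _⟩ := h
        exact le_rfl
      | guess =>
        obtain ⟨rfl, _⟩ := h
        exact Nat.zero_le _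
      | set f =>
        obtain ⟨rfl, _⟩ := h
        exact Nat.zero_le _
      | push i g => exact h.elim
      | pop i f => exact h.elim
  · intro l hl
    obtain ⟨bs, ys, hb, _, rfl, _⟩ := TWO.full_prog.1 hl
    rw [List.map_fst_zip (by rw [List.length_finRange, hb])]
    exact List.nodup_finRange M
  · intro x
    unfold Prog.Accepts NandAccepts
    constructor
    · rintro ⟨l, hl, hx⟩
      obtain ⟨bs, ys, hb, hy, rfl, h⟩ := TWO.full_prog.1 hl
      rw [TWO.zip_eq x bs hb] at hx
      subst hx
      exact ⟨ys, hy, h⟩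
    · rintro ⟨ys, hy, h⟩
      refine ⟨_, TWO.full_prog.2 ⟨List.ofFn x, ys, List.length_ofFn, hy, rfl, h⟩, ?_⟩
      exact (TWO.zip_eq x _ List.length_ofFn).2 rfl

end Pool.Agent.STK
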