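import Pool.Agent.STK.Hard
import Pool.Agent.STK.Two
import Pool.Agent.STK.Flat

/-!
# The theorems about one stack, from the core
-/

set_option autoImplicit false

namespace Pool.Agent.STK

open Finset Pool.Agent.URG
open Pool.Agent.Lib_helper20.SRO (Agrees NBP)
open Pool.Agent.CFT (FP Der CoreP NearlyP)
open Pool.Agent.HPM (DecOs)
open Pool.Agent.HPM.Fn (Coord)
open Pool.Agent.UM (InPP)

/-- the core for the three functions -/
def Core3 : Prop := ∃ c : ℝ, 0 < c ∧ c ≤ 1 ∧ ∃ n0 : ℕ, ∀ n ≥ n0, ∀ (e L : ℕ)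
    (β : Coord (deg n e)), (∀ r : ℕ, (r : ℝ) ≤ c * (n * L) → Num c n e L r) →
    CoreP c n L (goodA (L := L) β) ∧ CoreP c n L (goodF (L := L) β) ∧
      CoreP c n L (fun v : VarG n e L → Bool => !goodF β v)

/-- The theorem without polarity bit. -/
theorem mainA0 (hcore : Core3) : ∃ c : ℝ, 0 < c ∧ ∃ e L κ n0 : ℕ, ∀ n ≥ n0,
    Nonempty (Coord (deg n e)) ∧
    ∀ (β : Coord (deg n e)) (N : ℕ), N = Fintype.card (VarA n e L) →
    (n * L ≤ N ∧ N ≤ 2 * (n * L)) ∧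
    (∃ (Q : Type) (_ : Fintype Q) (G : Prog (VarA n e L) 0 Empty Q), G.Blocks 1 ∧ G.ReadOnce ∧
      G.Computes (fun v => !goodA β v) ∧ Fintype.card Q ≤ N ^ κ) ∧
    (∀ (Γ Q : Type) [Fintype Q] (G : Prog (VarA n e L) 1 Γ Q) (r : ℕ), (r : ℝ) ≤ c * N →
      G.Blocks r → G.FewRereads r ∨ G.Short r → G.Computes (goodA β) →
      (2 : ℝ) ^ (c * N) ≤ Fintype.card Q) ∧
    (∀ (Q : Type) [Fintype Q] (G : FP (VarA n e L) Q) (r : ℕ), (r : ℝ) ≤ c * N →
      G.Block r → G.FewRereads r ∨ G.Short r → G.Computes (goodA β) →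
      (2 : ℝ) ^ (c * N) ≤ Fintype.card Q) := by
  obtain ⟨c0, h0, h1, n2, hlow⟩ := hcore
  obtain ⟨e, L, he, hL, n1, hnum⟩ := t_num c0 h0 h1
  have hLR : (1 : ℝ) ≤ L := by exact_mod_cast hL
  refine ⟨c0 / (16 * L), by positivity, e, L, 6 * 4 ^ e + 18, n1 + n2, ?_⟩
  intro n hn
  refine ⟨coord_nonempty n e, ?_⟩
  intro β N hN
  obtain ⟨hn2, hW, hNum, -, -, hrob, h12⟩ := hnum n (by omega)
  obtain ⟨hA, -, -⟩ := hlow n (by omega) e L β hNum
  have hW' : ((Fintype.card (VarX n e) : ℕ) : ℝ) ≤ c0 / 4 * (n * L) := by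
    refine le_trans ?_ hW
    push_cast
    linarith
  have hH : HardS (c0 / (16 * L)) N (goodA (L := L) β) := by
    rw [hN]
    exact hardS_of c0 h0 h1 hL hn2 hW' h12 _ hA
  have hNle : n * L ≤ N := by
    rw [hN, card_all]
    omega
  have hN2 : N ≤ 2 * (n * L) := by
    have e1 : (N : ℝ) ≤ 2 * (n * L) := by
      rw [hN, card_all]
      push_cast
      have : (0 : ℝ) ≤ n * L := by positivity
      nlinarith
    exact_mod_cast e1
  have hC : HardC (c0 / (16 * L)) N (goodA (L := L) β) := by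
    rw [hN]
    exact hardC_of c0 h0 h1 hL hn2 hW' _ hA
  refine ⟨⟨hNle, hN2⟩, ?_, fun Γ Q _ G r hr hB hG hcomp => hH Γ Q G r hr hB hG hcomp,
    fun Q _ G r hr hB hG hcomp => hC Q G r hr hB hG hcomp⟩
  obtain ⟨Q, _, G, hG1, hG2, hG3⟩ := t_rob n e L β
  refine ⟨Q, inferInstance, ofNBP 0 Empty G, blocks_ofNBP G, readOnce_ofNBP.2 hG1,
    computes_ofNBP.2 hG2, ?_⟩
  rw [hG3]
  exact hrob.trans (Nat.pow_le_pow_left hNle _)

/-- The theorem with polarity bit. -/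
theorem mainF0 (hcore : Core3) : ∃ c : ℝ, 0 < c ∧ ∃ e L κ n0 : ℕ, ∀ n ≥ n0,
    Nonempty (Coord (deg n e)) ∧
    ∀ (β : Coord (deg n e)) (N : ℕ), N = Fintype.card (VarG n e L) →
    (n * L ≤ N ∧ N ≤ 2 * (n * L)) ∧
    (∀ (Γ Q : Type) [Fintype Q] (G : Prog (VarG n e L) 1 Γ Q) (r : ℕ), (r : ℝ) ≤ c * N →
      G.Blocks r → G.FewRereads r ∨ G.Short r →
      G.Computes (goodF β) ∨ G.Computes (fun v => !goodF β v) →
      (2 : ℝ) ^ (c * N) ≤ Fintype.card Q) ∧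
    (∀ (s b T : ℕ) (V : Type) [Fintype V], (s : ℝ) ≤ c * N → (T * s : ℝ) ≤ (1 + c) * N →
      InNPg s b (VarG n e L) V T (fun v => goodF β v = true) ∨
        InNPg s b (VarG n e L) V T (fun v => goodF β v = false) →
      (2 : ℝ) ^ (c * N) ≤ Fintype.card V) ∧
    ∃ (V : Type) (_ : Fintype V) (w : ℕ), Fintype.card V ≤ N ^ κ ∧ 2 ^ w ≤ N ^ κ ∧
      ∀ (s T : ℕ) (σ : Fin T → Fin s → VarG n e L), (∀ i, ∃ t j, σ t j = i) →
        InPP (DecOs s (VarG n e L) V T σ) w (fun v => goodF β v = true) := by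
  obtain ⟨c0, h0, h1, n2, hlow⟩ := hcore
  obtain ⟨e, L, he, hL, n1, hnum⟩ := t_num c0 h0 h1
  have hLR : (1 : ℝ) ≤ L := by exact_mod_cast hL
  refine ⟨c0 / (16 * L), by positivity, e, L, 6 * 4 ^ e + 18, n1 + n2, ?_⟩
  intro n hn
  refine ⟨coord_nonempty n e, ?_⟩
  intro β N hN
  obtain ⟨hn2, hW, hNum, hbits, hdeg, -, h12⟩ := hnum n (by omega)
  obtain ⟨-, hF1, hF2⟩ := hlow n (by omega) e L β hNum
  have hcW : Fintype.card (VarX n e ⊕ Unit) = Fintype.card (VarX n e) + 1 := by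
    rw [Fintype.card_sum, Fintype.card_unit]
  have hW' : ((Fintype.card (VarX n e ⊕ Unit) : ℕ) : ℝ) ≤ c0 / 4 * (n * L) := by
    rw [hcW]
    exact hW
  have hH1 : HardS (c0 / (16 * L)) N (goodF (L := L) β) := by
    rw [hN]
    exact hardS_of c0 h0 h1 hL hn2 hW' h12 _ hF1
  have hH2 : HardS (c0 / (16 * L)) N (fun v : VarG n e L → Bool => !goodF β v) := by
    rw [hN]
    exact hardS_of c0 h0 h1 hL hn2 hW' h12 _ hF2
  have hNle : n * L ≤ N := by
    rw [hN, card_all]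
    omega
  have hN2 : N ≤ 2 * (n * L) := by
    have e1 : (N : ℝ) ≤ 2 * (n * L) := by
      rw [hN, card_all]
      push_cast
      have : (0 : ℝ) ≤ n * L := by positivity
      nlinarith
    exact_mod_cast e1
  have hcn : (1 : ℝ) ≤ c0 * n := by
    by_contra hcon
    rw [not_le] at hcon
    have hn0 : (2 : ℝ) ≤ n := by exact_mod_cast hn2
    have h3 : (2 : ℝ) ^ (c0 / 4 * n) ≤ 2 ^ (1 : ℝ) :=
      Real.rpow_le_rpow_of_exponent_le one_le_two (by linarith)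
    rw [Real.rpow_one] at h3
    nlinarith
  have hcst := goodF_const (L := L) β
  have hM1 : Hard (c0 / (16 * L)) N (goodF (L := L) β) := by
    rw [hN]
    exact hard_of c0 h0 h1 hL hn2 hW' h12 _ hcst (core_of_coreP hcn hF1)
  have hM2 : Hard (c0 / (16 * L)) N (fun v : VarG n e L → Bool => !goodF β v) := by
    rw [hN]
    refine hard_of c0 h0 h1 hL hn2 hW' h12 _ ?_ (core_of_coreP hcn hF2)
    obtain ⟨⟨v, hv⟩, ⟨w, hw⟩⟩ := hcst
    exact ⟨⟨w, by rw [hw]; rfl⟩, ⟨v, by rw [hv]; rfl⟩⟩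
  refine ⟨⟨hNle, hN2⟩, ?_, ?_, ?_⟩
  · intro Γ Q _ G r hr hB hG hcomp
    rcases hcomp with hcomp | hcomp
    · exact hH1 Γ Q G r hr hB hG hcomp
    · exact hH2 Γ Q G r hr hB hG hcomp
  · intro s b T V _ hs hTs hV
    rcases hV with hV | hV
    · exact hM1.mach s b T V hs hTs hV
    · refine hM2.mach s b T V hs hTs ?_
      have e1 : (fun v : VarG n e L → Bool => (!goodF β v) = true) =
          fun v => goodF β v = false := by
        funext v
        simp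
      rw [e1]
      exact hV
  · obtain ⟨V, _, hV, hP⟩ := t_ppu n e L hL β
    refine ⟨V, inferInstance, bits n e L, ?_, ?_, hP⟩
    · rw [hV]
      exact hdeg.trans (Nat.pow_le_pow_left hNle _)
    · exact hbits.trans (Nat.pow_le_pow_left hNle _)

end Pool.Agent.STK
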