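import Pool.Agent.STK.Defs

/-!
# Programs whose stacks turn only once, acyclic programs
-/

set_option autoImplicit false

namespace Pool.Agent.STK

/-- One turn: no path of the graph has a push (on any stack) after a pop (on any stack). The nodes in
`D` are those after the turn: no edge leaves `D`, pops end in `D`, pushes do not start in `D`. -/
def Prog.OneTurn {V Γ N : Type} {k : ℕ} (G : Prog V k Γ N) : Prop :=
  ∃ D : N → Prop, (∀ u t v, G.test u t v → D u → D v) ∧ (∀ u i a v, G.pop u i a v → D v) ∧
    ∀ u i a v, G.push u i a v → ¬ D u

/-- The graph has no cycles: every edge leads to a node of larger height. -/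
def Prog.Acyclic {V Γ N : Type} {k : ℕ} (G : Prog V k Γ N) : Prop :=
  ∃ h : N → ℕ, (∀ u t v, G.test u t v → h u < h v) ∧ (∀ u i a v, G.push u i a v → h u < h v) ∧
    ∀ u i a v, G.pop u i a v → h u < h v

end Pool.Agent.STK
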