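import Pool.Agent.STK.Two
import Pool.Agent.STK.TurnDefs

/-!
# Two stacks that turn only once suffice for all nondeterministic circuits

The program guesses the list of all values of the circuit `|gs| + 1` times and pushes each copy on both
stacks. While it guesses the first copy it reads the input bits, while it guesses one of the others it
computes one gate instead of guessing its value. Then it pops one copy from the second stack, and
compares the remaining copies on the second stack with those on the first stack: all copies are equal.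
-/

set_option autoImplicit false

namespace Pool.Agent.STK

open Finset
open Pool.Agent.Lib_helper20.SRO (Agrees)

namespace TRN

open TWO

variable {V : Type}

/-- read the variables of the list and push their values on both stacks -/
def rd2 : List V → List (Ins V)
  | [] => []
  | x :: xs => Ins.test x :: Ins.push 0 Prod.fst :: Ins.push 1 Prod.fst :: rd2 xs

/-- guess `n` bits and push them on both stacks -/
def gu2 : ℕ → List (Ins V)
  | 0 => []
  | n + 1 => Ins.guess :: Ins.push 0 Prod.fst :: Ins.push 1 Prod.fst :: gu2 n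

/-- guess `n` bits, with the numbers `p`, `p + 1`, ..., push them on both stacks, and remember the
bits number `i` and `j` -/
def cp (i j : ℕ) : ℕ → ℕ → List (Ins V)
  | _, 0 => []
  | p, n + 1 => Ins.guess ::
      Ins.set (fun m => (m.1, if p = i then m.1 else m.2.1, if p = j then m.1 else m.2.2)) ::
      Ins.push 0 Prod.fst :: Ins.push 1 Prod.fst :: cp i j (p + 1) n

/-- a copy of the values: `n` values, then the gate `(i, j)`, then `r` values -/
def blk (i j n r : ℕ) : List (Ins V) :=
  Ins.set (fun m => (m.1, false, false)) :: (cp i j 0 n ++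
    (Ins.set (fun m => (!(m.2.1 && m.2.2), m.2)) :: Ins.push 0 Prod.fst :: Ins.push 1 Prod.fst ::
      gu2 r))

/-- the copies for the gates; the first gate has the number `n`, there are `S` values -/
def blks (S : ℕ) : List (ℕ × ℕ) → ℕ → List (Ins V)
  | [], _ => []
  | g :: gs, n => blk g.1 g.2 n (S - n - 1) ++ blks S gs (n + 1)

/-- pop `n` bits from the second stack -/
def ds : ℕ → List (Ins V)
  | 0 => []
  | n + 1 => Ins.pop 1 (fun m _ => m) :: ds n

/-- compare `n` bits of the two stacks -/
def cmp : ℕ → List (Ins V)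
  | 0 => []
  | n + 1 => Ins.pop 0 (fun m a => (a, m.2)) ::
      Ins.pop 1 (fun m a => (m.1, m.2.1, m.2.2 && (m.1 == a))) :: cmp n

lemma sem_rd2 {xs : List V} : ∀ {m m' : Mem} {s t : List Bool} {s' : Fin 2 → List Bool}
    {l : List (V × Bool)}, Sem (rd2 xs) m (st s t) m' s' l ↔
    ∃ bs : List Bool, bs.length = xs.length ∧ l = xs.zip bs ∧
      s' = st (bs.reverse ++ s) (bs.reverse ++ t) ∧ m' = (bs.getLastD m.1, m.2) := by
  induction xs with
  | nil =>
    intro m m' s t s' l
    simp only [rd2, Sem]
    constructor
    · rintro ⟨rfl, rfl, rfl⟩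
      exact ⟨[], rfl, rfl, rfl, rfl⟩
    · rintro ⟨bs, h1, h2, h3, h4⟩
      have : bs = [] := List.length_eq_zero_iff.1 h1
      subst this
      exact ⟨h4, h3, h2⟩
  | cons x xs ih =>
    intro m m' s t s' l
    simp only [rd2, Sem, upd_zero, st_zero, upd_one, st_one]
    constructor
    · rintro ⟨b, l', rfl, h⟩
      obtain ⟨bs, h1, rfl, rfl, rfl⟩ := ih.1 h
      exact ⟨b :: bs, by simp [h1], rfl, by simp, by rw [List.getLastD_cons]⟩
    · rintro ⟨bs, h1, rfl, rfl, rfl⟩
      cases bs with
      | nil => simp at h1
      | cons b bs =>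
        exact ⟨b, xs.zip bs, rfl, ih.2 ⟨bs, by simpa using h1, rfl, by simp, by
          rw [List.getLastD_cons]⟩⟩

lemma sem_gu2 : ∀ {n : ℕ} {m m' : Mem} {s t : List Bool} {s' : Fin 2 → List Bool}
    {l : List (V × Bool)}, Sem (gu2 n) m (st s t) m' s' l ↔
    ∃ bs : List Bool, bs.length = n ∧ l = [] ∧ s' = st (bs.reverse ++ s) (bs.reverse ++ t) ∧
      m' = (bs.getLastD m.1, m.2) := by
  intro n
  induction n with
  | zero =>
    intro m m' s t s' l
    simp only [gu2, Sem]
    constructor
    · rintro ⟨rfl, rfl, rfl⟩
      exact ⟨[], rfl, rfl, rfl, rfl⟩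
    · rintro ⟨bs, h1, h2, h3, h4⟩
      have : bs = [] := List.length_eq_zero_iff.1 h1
      subst this
      exact ⟨h4, h3, h2⟩
  | succ n ih =>
    intro m m' s t s' l
    simp only [gu2, Sem, upd_zero, st_zero, upd_one, st_one]
    constructor
    · rintro ⟨b, h⟩
      obtain ⟨bs, h1, rfl, rfl, rfl⟩ := ih.1 h
      exact ⟨b :: bs, by simp [h1], rfl, by simp, by rw [List.getLastD_cons]⟩
    · rintro ⟨bs, h1, rfl, rfl, rfl⟩
      cases bs with
      | nil => simp at h1
      | cons b bs =>
        exact ⟨b, ih.2 ⟨bs, by simpa using h1, rfl, by simp, by rw [List.getLastD_cons]⟩⟩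

/-- the remembered bit number `i`, if the bits `bs` have the numbers `p`, `p + 1`, ... -/
def rm (i : ℕ) : ℕ → Bool → List Bool → Bool
  | _, y, [] => y
  | p, y, b :: bs => rm i (p + 1) (if p = i then b else y) bs

lemma rm_lt {i : ℕ} : ∀ {bs : List Bool} {p : ℕ} {y : Bool}, i < p → rm i p y bs = y := by
  intro bs
  induction bs with
  | nil => intro p y _; rfl
  | cons b bs ih =>
    intro p y h
    rw [rm, if_neg (by omega), ih (by omega)]

lemma rm_eq {i : ℕ} : ∀ {bs : List Bool} {p : ℕ}, p ≤ i → rm i p false bs = bs.getD (i - p) false := by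
  intro bs
  induction bs with
  | nil => intro p _; simp [rm]
  | cons b bs ih =>
    intro p h
    rw [rm]
    rcases Nat.lt_or_ge p i with h1 | h1
    · rw [if_neg (by omega), ih (by omega)]
      have : i - p = (i - (p + 1)) + 1 := by omega
      rw [this, List.getD_cons_succ]
    · have h2 : p = i := by omega
      subst h2
      rw [if_pos rfl, rm_lt (by omega), Nat.sub_self, List.getD_cons_zero]

lemma sem_cp {i j : ℕ} : ∀ {n p : ℕ} {m m' : Mem} {s t : List Bool} {s' : Fin 2 → List Bool}
    {l : List (V × Bool)}, Sem (cp i j p n) m (st s t) m' s' l ↔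
    ∃ bs : List Bool, bs.length = n ∧ l = [] ∧ s' = st (bs.reverse ++ s) (bs.reverse ++ t) ∧
      m' = (bs.getLastD m.1, rm i p m.2.1 bs, rm j p m.2.2 bs) := by
  intro n
  induction n with
  | zero =>
    intro p m m' s t s' l
    simp only [cp, Sem]
    constructor
    · rintro ⟨rfl, rfl, rfl⟩
      exact ⟨[], rfl, rfl, rfl, rfl⟩
    · rintro ⟨bs, h1, h2, h3, h4⟩
      have : bs = [] := List.length_eq_zero_iff.1 h1
      subst this
      exact ⟨h4, h3, h2⟩
  | succ n ih =>
    intro p m m' s t s' l
    simp only [cp, Sem, upd_zero, st_zero, upd_one, st_one]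
    constructor
    · rintro ⟨b, h⟩
      obtain ⟨bs, h1, rfl, rfl, rfl⟩ := ih.1 h
      exact ⟨b :: bs, by simp [h1], rfl, by simp, by rw [List.getLastD_cons, rm, rm]⟩
    · rintro ⟨bs, h1, rfl, rfl, rfl⟩
      cases bs with
      | nil => simp at h1
      | cons b bs =>
        exact ⟨b, ih.2 ⟨bs, by simpa using h1, rfl, by simp, by
          rw [List.getLastD_cons, rm, rm]⟩⟩

/-- the copy `W` computes the gate `(i, j)` with the number `n` correctly -/
def GateOK (i j n : ℕ) (W : List Bool) : Prop :=
  ∃ us ws : List Bool, us.length = n ∧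
    W = us ++ (!(us.getD i false && us.getD j false)) :: ws

lemma last_app (us ws : List Bool) (x d : Bool) : (us ++ x :: ws).getLastD d = ws.getLastD x := by
  simp [List.getLastD_eq_getLast?, List.getLast?_append, List.getLast?_cons]

lemma last_flat (W : List Bool) (U : List Bool) (d : Bool) :
    (W ++ U).getLastD d = U.getLastD (W.getLastD d) := by
  simp only [List.getLastD_eq_getLast?, List.getLast?_append]
  cases U.getLast? <;> simp

lemma sem_blk {i j n r : ℕ} {m m' : Mem} {s t : List Bool} {s' : Fin 2 → List Bool}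
    {l : List (V × Bool)} (h : Sem (blk i j n r) m (st s t) m' s' l) :
    ∃ W : List Bool, W.length = n + 1 + r ∧ GateOK i j n W ∧ l = [] ∧
      s' = st (W.reverse ++ s) (W.reverse ++ t) ∧ m'.1 = W.getLastD m.1 := by
  simp only [blk, Sem, sem_append] at h
  obtain ⟨m1, s1, l1, l2, h1, h2, rfl⟩ := h
  obtain ⟨us, hu, rfl, rfl, rfl⟩ := sem_cp.1 h1
  simp only [st_zero, st_one, upd_zero, upd_one] at h2
  obtain ⟨ws, hw, rfl, rfl, rfl⟩ := sem_gu2.1 h2
  refine ⟨us ++ (!(us.getD i false && us.getD j false)) :: ws, ?_, ⟨us, ws, hu, rfl⟩, rfl, ?_, ?_⟩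
  · simp only [List.length_append, List.length_cons]
    omega
  · rw [rm_eq (Nat.zero_le _), rm_eq (Nat.zero_le _)]
    simp
  · rw [rm_eq (Nat.zero_le _), rm_eq (Nat.zero_le _), last_app]
    simp only [Nat.sub_zero]

lemma blk_sem {i j n r : ℕ} {m : Mem} {s t : List Bool} {W : List Bool}
    (hW : W.length = n + 1 + r) (h : GateOK i j n W) :
    ∃ m' : Mem, Sem (V := V) (blk i j n r) m (st s t) m'
      (st (W.reverse ++ s) (W.reverse ++ t)) [] ∧ m'.1 = W.getLastD m.1 := by
  obtain ⟨us, ws, hu, rfl⟩ := h
  have hw : ws.length = r := by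
    simp only [List.length_append, List.length_cons] at hW
    omega
  refine ⟨(ws.getLastD (!(us.getD i false && us.getD j false)),
    us.getD i false, us.getD j false), ?_, ?_⟩
  · simp only [blk, Sem, sem_append]
    refine ⟨_, _, [], [], sem_cp.2 ⟨us, hu, rfl, rfl, rfl⟩, ?_, rfl⟩
    simp only [st_zero, st_one, upd_zero, upd_one]
    refine sem_gu2.2 ⟨ws, hw, rfl, ?_, ?_⟩
    · rw [rm_eq (Nat.zero_le _), rm_eq (Nat.zero_le _)]
      simp
    · rw [rm_eq (Nat.zero_le _), rm_eq (Nat.zero_le _)]
      simp only [Nat.sub_zero]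
  · rw [last_app]

/-- the copies `Ws` for the gates -/
def Copies (S : ℕ) : List (ℕ × ℕ) → ℕ → List (List Bool) → Prop
  | [], _, Ws => Ws = []
  | g :: gs, n, Ws => ∃ W Ws', Ws = W :: Ws' ∧ W.length = S ∧ GateOK g.1 g.2 n W ∧
      Copies S gs (n + 1) Ws'

lemma sem_blks {S : ℕ} : ∀ {gs : List (ℕ × ℕ)} {n : ℕ} {m m' : Mem} {s t : List Bool}
    {s' : Fin 2 → List Bool} {l : List (V × Bool)}, n + gs.length = S →
    Sem (blks S gs n) m (st s t) m' s' l →
    ∃ Ws : List (List Bool), Copies S gs n Ws ∧ l = [] ∧
      s' = st (Ws.flatten.reverse ++ s) (Ws.flatten.reverse ++ t) ∧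
      m'.1 = Ws.flatten.getLastD m.1 := by
  intro gs
  induction gs with
  | nil =>
    intro n m m' s t s' l _ h
    obtain ⟨rfl, rfl, rfl⟩ := h
    exact ⟨[], rfl, rfl, rfl, rfl⟩
  | cons g gs ih =>
    intro n m m' s t s' l hS h
    simp only [blks, sem_append] at h
    obtain ⟨m1, s1, l1, l2, h1, h2, rfl⟩ := h
    obtain ⟨W, hW, hg, rfl, rfl, h3⟩ := sem_blk h1
    simp only [List.length_cons] at hS
    obtain ⟨Ws, hc, rfl, rfl, h4⟩ := ih (by omega) h2
    refine ⟨W :: Ws, ⟨W, Ws, rfl, by omega, hg, hc⟩, rfl, ?_, ?_⟩
    · simp [List.append_assoc]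
    · rw [h4, h3, List.flatten_cons, last_flat]

lemma blks_sem {S : ℕ} : ∀ {gs : List (ℕ × ℕ)} {n : ℕ} {m : Mem} {s t : List Bool}
    {Ws : List (List Bool)}, n + gs.length = S → Copies S gs n Ws →
    ∃ m' : Mem, Sem (V := V) (blks S gs n) m (st s t) m'
      (st (Ws.flatten.reverse ++ s) (Ws.flatten.reverse ++ t)) [] ∧
      m'.1 = Ws.flatten.getLastD m.1 := by
  intro gs
  induction gs with
  | nil =>
    intro n m s t Ws _ h
    have : Ws = [] := h
    subst this
    exact ⟨m, ⟨rfl, rfl, rfl⟩, rfl⟩
  | cons g gs ih =>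
    intro n m s t Ws hS h
    obtain ⟨W, Ws', rfl, hW, hg, hc⟩ := h
    simp only [List.length_cons] at hS
    obtain ⟨m1, h1, h2⟩ := blk_sem (V := V) (i := g.1) (j := g.2) (n := n) (r := S - n - 1) (m := m)
      (s := s) (t := t) (W := W) (by omega) hg
    obtain ⟨m2, h3, h4⟩ := ih (m := m1) (s := W.reverse ++ s) (t := W.reverse ++ t) (by omega) hc
    refine ⟨m2, ?_, ?_⟩
    · simp only [blks, sem_append]
      refine ⟨m1, _, [], [], h1, ?_, rfl⟩
      have e : ∀ u : List Bool, (W :: Ws').flatten.reverse ++ u =
          Ws'.flatten.reverse ++ (W.reverse ++ u) := by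
        intro u
        simp [List.append_assoc]
      rw [e, e]
      exact h3
    · rw [h4, h2, List.flatten_cons, last_flat]

lemma sem_ds : ∀ {n : ℕ} {m m' : Mem} {s t : List Bool} {s' : Fin 2 → List Bool}
    {l : List (V × Bool)}, n ≤ t.length → (Sem (ds n) m (st s t) m' s' l ↔
    m' = m ∧ s' = st s (t.drop n) ∧ l = []) := by
  intro n
  induction n with
  | zero =>
    intro m m' s t s' l _
    simp only [ds, Sem, List.drop_zero]
  | succ n ih =>
    intro m m' s t s' l hn
    cases t with
    | nil => simp at hn
    | cons a t =>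
      simp only [ds, Sem, st_one, List.cons.injEq, upd_one, List.drop_succ_cons]
      have hn' : n ≤ t.length := by simpa using hn
      constructor
      · rintro ⟨a', r, ⟨rfl, rfl⟩, h⟩
        exact (ih hn').1 h
      · intro h
        exact ⟨a, t, ⟨rfl, rfl⟩, (ih hn').2 h⟩

lemma sem_cmp : ∀ {n : ℕ} {m m' : Mem} {s t : List Bool} {s' : Fin 2 → List Bool}
    {l : List (V × Bool)}, n ≤ s.length → n ≤ t.length →
    (Sem (cmp n) m (st s t) m' s' l ↔
      m' = ((s.take n).getLastD m.1, m.2.1, m.2.2 && decide (s.take n = t.take n)) ∧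
      s' = st (s.drop n) (t.drop n) ∧ l = []) := by
  intro n
  induction n with
  | zero =>
    intro m m' s t s' l _ _
    simp [cmp, Sem]
  | succ n ih =>
    intro m m' s t s' l hs ht
    cases s with
    | nil => simp at hs
    | cons a s =>
      cases t with
      | nil => simp at ht
      | cons b t =>
        have hs' : n ≤ s.length := by simpa using hs
        have ht' : n ≤ t.length := by simpa using ht
        simp only [cmp, Sem, st_zero, st_one, List.cons.injEq, upd_zero, upd_one,
          List.drop_succ_cons, List.take_succ_cons, List.getLastD_cons]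
        have e : ∀ y : Bool, ((y && (a == b)) && decide (s.take n = t.take n)) =
            (y && decide (a = b ∧ s.take n = t.take n)) := by
          intro y
          cases a <;> cases b <;> cases y <;> simp
        constructor
        · rintro ⟨a', r, ⟨rfl, rfl⟩, b', r', ⟨rfl, rfl⟩, h⟩
          obtain ⟨rfl, h2⟩ := (ih hs' ht').1 h
          exact ⟨by rw [← e], h2⟩
        · rintro ⟨rfl, h2⟩
          exact ⟨a, s, ⟨rfl, rfl⟩, b, t, ⟨rfl, rfl⟩, (ih hs' ht').2 ⟨by rw [← e], h2⟩⟩

/-- the first half: all pushes -/
def partA (M t : ℕ) (gs : List (ℕ × ℕ)) : List (Ins (Fin M)) :=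
  rd2 (List.finRange M) ++ (gu2 (t + gs.length) ++ (blks (M + t + gs.length) gs (M + t) ++
    [Ins.set (fun m => (m.1, m.1, m.1))]))

/-- the second half: all pops -/
def partB (M t : ℕ) (gs : List (ℕ × ℕ)) : List (Ins (Fin M)) :=
  ds (M + t + gs.length) ++ (cmp (gs.length * (M + t + gs.length)) ++
    [Ins.set (fun m => (m.2.2, false, false))])

/-- the whole list of instructions -/
def prog (M t : ℕ) (gs : List (ℕ × ℕ)) : List (Ins (Fin M)) := partA M t gs ++ partB M t gs

lemma copies_len {S : ℕ} : ∀ {gs : List (ℕ × ℕ)} {n : ℕ} {Ws : List (List Bool)},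
    Copies S gs n Ws → Ws.flatten.length = gs.length * S ∧ ∀ W ∈ Ws, W.length = S := by
  intro gs
  induction gs with
  | nil =>
    intro n Ws h
    have : Ws = [] := h
    subst this
    simp
  | cons g gs ih =>
    intro n Ws h
    obtain ⟨W, Ws', rfl, hW, _, hc⟩ := h
    obtain ⟨h1, h2⟩ := ih hc
    refine ⟨?_, ?_⟩
    · rw [List.flatten_cons, List.length_append, h1, hW, List.length_cons]
      ring
    · intro X hX
      rcases List.mem_cons.1 hX with rfl | hX
      · exact hW
      · exact h2 X hX

/-- shifted copies are equal only if all copies are equal -/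
lemma shift_eq {S : ℕ} : ∀ {Ws : List (List Bool)} {W : List Bool}, W.length = S →
    (∀ X ∈ Ws, X.length = S) →
    (Ws.flatten = (W ++ Ws.flatten).take Ws.flatten.length ↔ ∀ X ∈ Ws, X = W) := by
  intro Ws
  induction Ws with
  | nil => intro W _ _; simp
  | cons X Ws ih =>
    intro W hW hX
    have hX1 : X.length = S := hX X List.mem_cons_self
    have hX2 : ∀ Y ∈ Ws, Y.length = S := fun Y hY => hX Y (List.mem_cons_of_mem _ hY)
    have e : (W ++ (X :: Ws).flatten).take (X :: Ws).flatten.length =
        W ++ (X ++ Ws.flatten).take Ws.flatten.length := by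
      rw [List.flatten_cons, List.length_append, hX1, ← hW, List.take_append,
        List.take_of_length_le (by omega)]
      congr 2
      omega
    rw [e]
    constructor
    · intro h
      rw [List.flatten_cons] at h
      obtain ⟨h1, h2⟩ := List.append_inj h (by rw [hX1, hW])
      intro Y hY
      rcases List.mem_cons.1 hY with rfl | hY
      · exact h1
      · rw [← h1]
        exact (ih hX1 hX2).1 h2 Y hY
    · intro h
      have h1 : X = W := h X List.mem_cons_self
      rw [List.flatten_cons]
      have h2 := (ih hX1 hX2).2 (fun Y hY => by rw [h1]; exact h Y (List.mem_cons_of_mem _ hY))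
      rw [← h2, h1]

lemma copies_rep {S : ℕ} : ∀ {gs : List (ℕ × ℕ)} {n : ℕ} {W : List Bool},
    W.length = S → n + gs.length = S → (Copies S gs n (List.replicate gs.length W) ↔
      W = nandVals gs (W.take n)) := by
  intro gs
  induction gs with
  | nil =>
    intro n W hW hn
    simp only [List.length_nil, List.replicate_zero, Copies, nandVals, true_iff]
    rw [List.take_of_length_le]
    simp only [List.length_nil] at hn
    omega
  | cons g gs ih =>
    intro n W hW hn
    simp only [List.length_cons] at hn
    have key : GateOK g.1 g.2 n W ↔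
        W.take (n + 1) = W.take n ++ [!((W.take n).getD g.1 false && (W.take n).getD g.2 false)] := by
      constructor
      · rintro ⟨us, ws, hu, rfl⟩
        rw [List.take_left' hu]
        have e : us ++ (!(us.getD g.1 false && us.getD g.2 false)) :: ws =
            (us ++ [!(us.getD g.1 false && us.getD g.2 false)]) ++ ws := by simp
        rw [e, List.take_left' (by simp [hu])]
      · intro h
        refine ⟨W.take n, W.drop (n + 1), by rw [List.length_take]; omega, ?_⟩
        conv_lhs => rw [← List.take_append_drop (n + 1) W, h]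
        simp
    simp only [List.length_cons, List.replicate_succ, Copies, nandVals]
    constructor
    · rintro ⟨W', Ws', h1, hW', hg, hc⟩
      obtain ⟨rfl, rfl⟩ := List.cons.inj h1
      have h2 := (ih hW (by omega)).1 hc
      rw [← key.1 hg]
      exact h2
    · intro h
      have hg : GateOK g.1 g.2 n W := by
        rw [key]
        have hp : ∀ (gs : List (ℕ × ℕ)) (vs : List Bool), vs <+: nandVals gs vs := by
          intro gs
          induction gs with
          | nil => intro vs; exact List.prefix_rfl
          | cons g gs ih =>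
            intro vs
            exact (List.prefix_append _ _).trans (ih _)
        have h3 := hp gs (W.take n ++ [!((W.take n).getD g.1 false && (W.take n).getD g.2 false)])
        rw [← h] at h3
        have h4 := List.prefix_iff_eq_take.1 h3
        rw [List.length_append, List.length_take, List.length_singleton,
          Nat.min_eq_left (by omega)] at h4
        exact h4.symm
      refine ⟨W, _, rfl, hW, hg, (ih hW (by omega)).2 ?_⟩
      rw [key.1 hg]
      exact h

lemma nandVals_length : ∀ (gs : List (ℕ × ℕ)) (vs : List Bool),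
    (nandVals gs vs).length = vs.length + gs.length := by
  intro gs
  induction gs with
  | nil => intro vs; rfl
  | cons g gs ih =>
    intro vs
    rw [nandVals, ih, List.length_append, List.length_cons, List.length_cons, List.length_nil]
    omega

lemma nandVals_prefix : ∀ (gs : List (ℕ × ℕ)) (vs : List Bool), vs <+: nandVals gs vs := by
  intro gs
  induction gs with
  | nil => intro vs; exact List.prefix_rfl
  | cons g gs ih =>
    intro vs
    exact (List.prefix_append _ _).trans (ih _)

lemma copies_length {S : ℕ} : ∀ {gs : List (ℕ × ℕ)} {n : ℕ} {Ws : List (List Bool)},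
    Copies S gs n Ws → Ws.length = gs.length := by
  intro gs
  induction gs with
  | nil =>
    intro n Ws h
    have : Ws = [] := h
    subst this
    rfl
  | cons g gs ih =>
    intro n Ws h
    obtain ⟨W, Ws', rfl, _, _, hc⟩ := h
    rw [List.length_cons, List.length_cons, ih hc]

lemma last_rep (W : List Bool) : ∀ (n : ℕ),
    (W ++ (List.replicate n W).flatten).getLastD false = W.getLastD false := by
  have h0 : W.getLastD (W.getLastD false) = W.getLastD false := by
    cases W with
    | nil => rfl
    | cons a W => rw [List.getLastD_cons, List.getLastD_cons]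
  intro n
  induction n with
  | zero => simp
  | succ n ih =>
    rw [List.replicate_succ, List.flatten_cons, last_flat, ← last_flat, ← List.append_assoc,
      last_flat, last_flat, h0, ← last_flat, ih]

lemma st_nil : (fun _ => [] : Fin 2 → List Bool) = st [] [] := by
  funext j
  fin_cases j <;> rfl

lemma sem_partA {M t : ℕ} {gs : List (ℕ × ℕ)} {m' : Mem} {s' : Fin 2 → List Bool}
    {l : List (Fin M × Bool)}
    (h : Sem (partA M t gs) (false, false, false) (fun _ => []) m' s' l) :
    ∃ (bs zs : List Bool) (Ws : List (List Bool)), bs.length = M ∧ zs.length = t + gs.length ∧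
      l = (List.finRange M).zip bs ∧ Copies (M + t + gs.length) gs (M + t) Ws ∧
      s' = st (bs ++ zs ++ Ws.flatten).reverse (bs ++ zs ++ Ws.flatten).reverse ∧
      m' = ((bs ++ zs ++ Ws.flatten).getLastD false, (bs ++ zs ++ Ws.flatten).getLastD false,
        (bs ++ zs ++ Ws.flatten).getLastD false) := by
  rw [st_nil] at h
  simp only [partA, sem_append] at h
  obtain ⟨m1, s1, l1, l2, h1, ⟨m2, s2, l3, l4, h2, ⟨m3, s3, l5, l6, h3, h4, rfl⟩, rfl⟩, rfl⟩ := h
  obtain ⟨bs, hb, rfl, rfl, rfl⟩ := sem_rd2.1 h1
  obtain ⟨zs, hz, rfl, rfl, rfl⟩ := sem_gu2.1 h2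
  obtain ⟨Ws, hc, rfl, rfl, h5⟩ := sem_blks rfl h3
  obtain ⟨rfl, rfl, rfl⟩ := h4
  refine ⟨bs, zs, Ws, by rw [hb, List.length_finRange], hz, by simp, hc, ?_, ?_⟩
  · simp [List.append_assoc]
  · rw [last_flat, last_flat, ← h5]

lemma partA_sem {M t : ℕ} {gs : List (ℕ × ℕ)} {bs zs : List Bool} {Ws : List (List Bool)}
    (hb : bs.length = M) (hz : zs.length = t + gs.length)
    (hc : Copies (M + t + gs.length) gs (M + t) Ws) :
    Sem (partA M t gs) (false, false, false) (fun _ => [])
      ((bs ++ zs ++ Ws.flatten).getLastD false, (bs ++ zs ++ Ws.flatten).getLastD false,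
        (bs ++ zs ++ Ws.flatten).getLastD false)
      (st (bs ++ zs ++ Ws.flatten).reverse (bs ++ zs ++ Ws.flatten).reverse)
      ((List.finRange M).zip bs) := by
  rw [st_nil]
  simp only [partA, sem_append]
  obtain ⟨m1, h1, h2⟩ := blks_sem (V := Fin M) (S := M + t + gs.length) (gs := gs) (n := M + t)
    (m := (zs.getLastD (bs.getLastD false), false, false)) (s := zs.reverse ++ (bs.reverse ++ []))
    (t := zs.reverse ++ (bs.reverse ++ [])) (Ws := Ws) rfl hc
  refine ⟨_, _, (List.finRange M).zip bs, [], sem_rd2.2 ⟨bs, by rw [hb, List.length_finRange],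
    rfl, rfl, rfl⟩, ⟨_, _, [], [], sem_gu2.2 ⟨zs, hz, rfl, rfl, rfl⟩, ⟨m1, _, [], [], h1,
    ⟨?_, ?_, rfl⟩, rfl⟩, rfl⟩, ?_⟩
  · show _ = (m1.1, m1.1, m1.1)
    rw [last_flat, last_flat, h2]
  · simp [List.append_assoc]
  · simp

lemma sem_partB {M t : ℕ} {gs : List (ℕ × ℕ)} {m m' : Mem} {s' : Fin 2 → List Bool}
    {l : List (Fin M × Bool)} {W F : List Bool} (hW : W.length = M + t + gs.length)
    (hF : F.length = gs.length * (M + t + gs.length)) :
    Sem (partB M t gs) m (st (W ++ F).reverse (W ++ F).reverse) m' s' l ↔
      m' = (m.2.2 && decide (F = (W ++ F).take F.length), false, false) ∧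
      s' = st W.reverse [] ∧ l = [] := by
  have hlen : (W ++ F).reverse.length = (M + t + gs.length) + gs.length * (M + t + gs.length) := by
    rw [List.length_reverse, List.length_append, hW, hF]
  have hd : ((W ++ F).reverse.drop (M + t + gs.length)).length =
      gs.length * (M + t + gs.length) := by
    rw [List.length_drop, hlen]
    omega
  have e1 : (W ++ F).reverse.take (gs.length * (M + t + gs.length)) = F.reverse := by
    rw [List.reverse_append, List.take_left' (by rw [List.length_reverse, hF])]
  have e2 : (W ++ F).reverse.drop (gs.length * (M + t + gs.length)) = W.reverse := by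
    rw [List.reverse_append, List.drop_left' (by rw [List.length_reverse, hF])]
  have e3 : (W ++ F).reverse.drop (M + t + gs.length) = ((W ++ F).take F.length).reverse := by
    rw [List.drop_reverse, List.length_append, hW]
    congr 2
    omega
  have e4 : (decide (F.reverse = ((W ++ F).take F.length).reverse)) =
      decide (F = (W ++ F).take F.length) := decide_eq_decide.2 List.reverse_inj
  have e5 : ((W ++ F).reverse.drop (M + t + gs.length)).take (gs.length * (M + t + gs.length)) =
      ((W ++ F).take F.length).reverse := by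
    rw [List.take_of_length_le (by rw [hd]), e3]
  have e6 : ((W ++ F).reverse.drop (M + t + gs.length)).drop (gs.length * (M + t + gs.length)) =
      [] := List.drop_of_length_le (by rw [hd])
  simp only [partB, sem_append]
  constructor
  · rintro ⟨m1, s1, l1, l2, h1, ⟨m2, s2, l3, l4, h2, h3, rfl⟩, rfl⟩
    obtain ⟨rfl, rfl, rfl⟩ := (sem_ds (by rw [hlen]; omega)).1 h1
    obtain ⟨rfl, rfl, rfl⟩ := (sem_cmp (by rw [hlen]; omega) (by rw [hd])).1 h2
    obtain ⟨rfl, rfl, rfl⟩ := h3
    rw [e1, e2, e5, e6, e4]
    exact ⟨rfl, rfl, rfl⟩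
  · rintro ⟨rfl, rfl, rfl⟩
    refine ⟨_, _, [], [], (sem_ds (by rw [hlen]; omega)).2 ⟨rfl, rfl, rfl⟩, ⟨_, _, [], [],
      (sem_cmp (by rw [hlen]; omega) (by rw [hd])).2 ⟨rfl, rfl, rfl⟩, ⟨?_, ?_, rfl⟩, rfl⟩, rfl⟩
    · rw [e1, e5, e4]
    · rw [e6, e2]

lemma full_prog {M t : ℕ} {gs : List (ℕ × ℕ)} {l : List (Fin M × Bool)} :
    (code (prog M t gs)).Full l ↔ ∃ bs ys : List Bool, bs.length = M ∧ ys.length = t ∧
      l = (List.finRange M).zip bs ∧ (nandVals gs (bs ++ ys)).getLast? = some true := by
  rw [full_code]
  simp only [prog, sem_append]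
  constructor
  · rintro ⟨s', m1, s1, l1, l2, h1, h2, rfl⟩
    obtain ⟨bs, zs, Ws, hb, hz, rfl, hc, rfl, rfl⟩ := sem_partA h1
    have hW : (bs ++ zs).length = M + t + gs.length := by
      rw [List.length_append, hb, hz]
      omega
    obtain ⟨hF, hX⟩ := copies_len hc
    obtain ⟨h3, rfl, rfl⟩ := (sem_partB hW hF).1 h2
    have h4 := (congrArg Prod.fst h3).symm
    simp only [Bool.and_eq_true, decide_eq_true_eq] at h4
    obtain ⟨h5, h6⟩ := h4
    have h7 := (shift_eq hW hX).1 h6
    have h8 : Ws = List.replicate gs.length (bs ++ zs) :=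
      List.eq_replicate_iff.2 ⟨copies_length hc, h7⟩
    rw [h8] at hc h5
    rw [last_rep] at h5
    have h9 := (copies_rep hW rfl).1 hc
    have h10 : (bs ++ zs).take (M + t) = bs ++ zs.take t := by
      rw [List.take_append, hb, List.take_of_length_le (by omega)]
      congr 2
      omega
    rw [h10] at h9
    refine ⟨bs, zs.take t, hb, by rw [List.length_take, hz]; omega, by simp, ?_⟩
    rw [← h9]
    rw [List.getLastD_eq_getLast?] at h5
    cases h11 : (bs ++ zs).getLast? with
    | none => rw [h11] at h5; simp at h5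
    | some a => rw [h11] at h5; simpa using h5
  · rintro ⟨bs, ys, hb, hy, rfl, h⟩
    obtain ⟨us, hus⟩ := nandVals_prefix gs (bs ++ ys)
    have hlen := nandVals_length gs (bs ++ ys)
    have hul : us.length = gs.length := by
      rw [← hus, List.length_append] at hlen
      omega
    set W : List Bool := bs ++ (ys ++ us) with hWd
    have hWn : W = nandVals gs (bs ++ ys) := by
      rw [← hus, hWd, List.append_assoc]
    have hW : W.length = M + t + gs.length := by
      rw [hWn, hlen, List.length_append, hb, hy]
    have hz : (ys ++ us).length = t + gs.length := by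
      rw [List.length_append, hy, hul]
    have ht : W.take (M + t) = bs ++ ys := by
      rw [hWd, ← List.append_assoc, List.take_left' (by rw [List.length_append, hb, hy])]
    have hc : Copies (M + t + gs.length) gs (M + t) (List.replicate gs.length W) :=
      (copies_rep hW rfl).2 (by rw [ht]; exact hWn)
    obtain ⟨hF, hX⟩ := copies_len hc
    have h1 := partA_sem hb hz hc
    rw [← hWd] at h1
    have h2 := (sem_partB (m := ((W ++ (List.replicate gs.length W).flatten).getLastD false,
      (W ++ (List.replicate gs.length W).flatten).getLastD false,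
      (W ++ (List.replicate gs.length W).flatten).getLastD false)) hW hF).2 ⟨rfl, rfl, rfl⟩
    have h3 : (W ++ (List.replicate gs.length W).flatten).getLastD false = true := by
      rw [last_rep, hWn, List.getLastD_eq_getLast?, h]
      rfl
    have h4 := (shift_eq hW hX).2 (fun X hX' => (List.mem_replicate.1 hX').2)
    refine ⟨st W.reverse [], _, _, _, [], h1, ?_, by simp⟩
    convert h2 using 2
    rw [h3, decide_eq_true h4]
    rfl

lemma length_rd2 (xs : List V) : (rd2 xs).length = 3 * xs.length := by
  induction xs with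
  | nil => rfl
  | cons x xs ih =>
    simp only [rd2, List.length_cons, ih]
    omega

lemma length_gu2 (n : ℕ) : (gu2 (V := V) n).length = 3 * n := by
  induction n with
  | zero => rfl
  | succ n ih =>
    simp only [gu2, List.length_cons, ih]
    omega

lemma length_cp (i j n : ℕ) : ∀ p, (cp (V := V) i j p n).length = 4 * n := by
  induction n with
  | zero => intro p; rfl
  | succ n ih =>
    intro p
    simp only [cp, List.length_cons, ih]
    omega

lemma length_blks (S : ℕ) : ∀ (gs : List (ℕ × ℕ)) (n : ℕ), n + gs.length = S →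
    (blks (V := V) S gs n).length ≤ gs.length * (4 * S) := by
  intro gs
  induction gs with
  | nil => intro n _; simp [blks]
  | cons g gs ih =>
    intro n hn
    rw [List.length_cons] at hn
    have h1 := ih (n + 1) (by omega)
    simp only [blks, blk, List.length_append, List.length_cons, length_cp, length_gu2]
    have h2 : (gs.length + 1) * (4 * S) = gs.length * (4 * S) + 4 * S := by ring
    omega

lemma length_ds (n : ℕ) : (ds (V := V) n).length = n := by
  induction n with
  | zero => rfl
  | succ n ih => simp only [ds, List.length_cons, ih]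

lemma length_cmp (n : ℕ) : (cmp (V := V) n).length = 2 * n := by
  induction n with
  | zero => rfl
  | succ n ih =>
    simp only [cmp, List.length_cons, ih]
    omega

theorem card_prog (M t : ℕ) (gs : List (ℕ × ℕ)) :
    Fintype.card (Fin ((prog M t gs).length + 1) × Mem) ≤ 48 * (M + t + gs.length + 1) ^ 2 := by
  have h1 := length_blks (V := Fin M) (M + t + gs.length) gs (M + t) rfl
  have h3 : Fintype.card Mem = 8 := rfl
  have h2 : (prog M t gs).length ≤ 4 * (M + t + gs.length) +
      6 * (gs.length * (M + t + gs.length)) + 2 := by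
    simp only [prog, partA, partB, List.length_append, length_rd2, length_gu2, List.length_finRange,
      List.length_cons, List.length_nil, length_ds, length_cmp]
    have h4 : gs.length * (4 * (M + t + gs.length)) = 4 * (gs.length * (M + t + gs.length)) := by
      ring
    omega
  rw [Fintype.card_prod, Fintype.card_fin, h3]
  nlinarith [Nat.zero_le (M + t), Nat.zero_le gs.length,
    Nat.mul_le_mul_right (M + t + gs.length) (show gs.length ≤ M + t + gs.length by omega)]

/-- there is no pop in the list -/
def NoPop (P : List (Ins V)) : Prop := ∀ i f, Ins.pop i f ∉ P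

/-- there is no push in the list -/
def NoPush (P : List (Ins V)) : Prop := ∀ i g, Ins.push i g ∉ P

lemma noPop_partA (M t : ℕ) (gs : List (ℕ × ℕ)) : NoPop (partA M t gs) := by
  have h1 : ∀ xs : List (Fin M), NoPop (rd2 xs) := by
    intro xs
    induction xs with
    | nil => intro i f h; simp [rd2] at h
    | cons x xs ih =>
      intro i f h
      simp only [rd2, List.mem_cons, reduceCtorEq, false_or] at h
      exact ih i f h
  have h2 : ∀ n, NoPop (gu2 (V := Fin M) n) := by
    intro n
    induction n with
    | zero => intro i f h; simp [gu2] at h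
    | succ n ih =>
      intro i f h
      simp only [gu2, List.mem_cons, reduceCtorEq, false_or] at h
      exact ih i f h
  have h3 : ∀ i' j' n p, NoPop (cp (V := Fin M) i' j' p n) := by
    intro i' j' n
    induction n with
    | zero => intro p i f h; simp [cp] at h
    | succ n ih =>
      intro p i f h
      simp only [cp, List.mem_cons, reduceCtorEq, false_or] at h
      exact ih _ i f h
  have h4 : ∀ (gs : List (ℕ × ℕ)) (S n : ℕ), NoPop (blks (V := Fin M) S gs n) := by
    intro gs
    induction gs with
    | nil => intro S n i f h; simp [blks] at h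
    | cons g gs ih =>
      intro S n i f h
      simp only [blks, blk, List.mem_append, List.mem_cons, reduceCtorEq, false_or] at h
      rcases h with (h | h) | h
      · exact h3 _ _ _ _ i f h
      · exact h2 _ i f h
      · exact ih _ _ i f h
  intro i f h
  simp only [partA, List.mem_append, List.mem_cons, List.not_mem_nil, reduceCtorEq, or_false] at h
  rcases h with h | h | h
  · exact h1 _ i f h
  · exact h2 _ i f h
  · exact h4 _ _ _ i f h

lemma noPush_partB (M t : ℕ) (gs : List (ℕ × ℕ)) : NoPush (partB M t gs) := by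
  have h1 : ∀ n, NoPush (ds (V := Fin M) n) := by
    intro n
    induction n with
    | zero => intro i f h; simp [ds] at h
    | succ n ih =>
      intro i f h
      simp only [ds, List.mem_cons, reduceCtorEq, false_or] at h
      exact ih i f h
  have h2 : ∀ n, NoPush (cmp (V := Fin M) n) := by
    intro n
    induction n with
    | zero => intro i f h; simp [cmp] at h
    | succ n ih =>
      intro i f h
      simp only [cmp, List.mem_cons, reduceCtorEq, false_or] at h
      exact ih i f h
  intro i f h
  simp only [partB, List.mem_append, List.mem_cons, List.not_mem_nil, reduceCtorEq, or_false] at h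
  rcases h with h | h
  · exact h1 _ i f h
  · exact h2 _ i f h

lemma one_turn {A B : List (Ins V)} (hA : NoPop A) (hB : NoPush B) : (code (A ++ B)).OneTurn := by
  refine ⟨fun u => A.length ≤ u.1, ?_, ?_, ?_⟩
  · rintro u t v ⟨h, _⟩ hu
    show A.length ≤ (v.1 : ℕ)
    rw [h]
    exact Nat.le_succ_of_le hu
  · rintro u i a v ⟨h, f, hf, _⟩
    show A.length ≤ (v.1 : ℕ)
    by_contra hc
    rw [List.getElem?_append_left (by omega)] at hf
    exact hA i f (List.mem_of_getElem? hf)
  · rintro u i a v ⟨_, g, hg, _⟩ hu
    have hu' : A.length ≤ (u.1 : ℕ) := hu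
    rw [List.getElem?_append_right hu'] at hg
    exact hB i g (List.mem_of_getElem? hg)

lemma acyclic (P : List (Ins V)) : (code P).Acyclic := by
  refine ⟨fun u => u.1, ?_, ?_, ?_⟩
  · rintro u t v ⟨h, _⟩
    show (u.1 : ℕ) < v.1
    omega
  · rintro u i a v ⟨h, _⟩
    show (u.1 : ℕ) < v.1
    omega
  · rintro u i a v ⟨h, _⟩
    show (u.1 : ℕ) < v.1
    omega

end TRN

/-- **Two stacks that turn only once**: a nondeterministic circuit with `M` inputs, `t` guessed bits
and the NAND gates `gs` has an equivalent acyclic program with two stacks over the alphabet `{0, 1}`, in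
which no push comes after a pop, with at most `48 (M + t + |gs| + 1) ^ 2` nodes and single tests, in
which every variable is tested at most once on every run. -/
theorem two_turns (M t : ℕ) (gs : List (ℕ × ℕ)) : ∃ (N : Type) (_ : Fintype N)
    (G : Prog (Fin M) 2 Bool N), G.OneTurn ∧ G.Acyclic ∧ G.Blocks 1 ∧ G.ReadOnce ∧
      (∀ x, G.Accepts x ↔ NandAccepts t gs x) ∧
      Fintype.card N ≤ 48 * (M + t + gs.length + 1) ^ 2 := by
  refine ⟨_, inferInstance, TWO.code (TRN.prog M t gs), TRN.one_turn (TRN.noPop_partA M t gs)
    (TRN.noPush_partB M t gs), TRN.acyclic _, ?_, ?_, ?_, TRN.card_prog M t gs⟩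
  · rintro u l v ⟨_, h⟩
    generalize (TRN.prog M t gs)[(u.1 : ℕ)]? = o at h
    rcases o with _ | a
    · exact h.elim
    · cases a with
      | test x =>
        obtain ⟨b, rfl, _⟩ := h
        exact le_rfl
      | guess =>
        obtain ⟨rfl, _⟩ := h
        exact Nat.zero_le _
      | set f =>
        obtain ⟨rfl, _⟩ := h
        exact Nat.zero_le _
      | push i g => exact h.elim
      | pop i f => exact h.elim
  · intro l hl
    obtain ⟨bs, ys, hb, _, rfl, _⟩ := TRN.full_prog.1 hl
    rw [List.map_fst_zip (by rw [List.length_finRange, hb])]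
    exact List.nodup_finRange M
  · intro x
    unfold Prog.Accepts NandAccepts
    constructor
    · rintro ⟨l, hl, hx⟩
      obtain ⟨bs, ys, hb, hy, rfl, h⟩ := TRN.full_prog.1 hl
      rw [TWO.zip_eq x bs hb] at hx
      subst hx
      exact ⟨ys, hy, h⟩
    · rintro ⟨ys, hy, h⟩
      refine ⟨_, TRN.full_prog.2 ⟨List.ofFn x, ys, List.length_ofFn, hy, rfl, h⟩, ?_⟩
      exact (TWO.zip_eq x _ List.length_ofFn).2 rfl

end Pool.Agent.STK
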